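import Pool.Agent.H488.W.Near

/-!
# Near linear relations at several points: direct sum, dichotomy of scales, zero-one law
-/

set_option autoImplicit false

namespace Pool.Agent.H488.W

variable {A J : Type} [Fintype A] [Fintype J]

lemma NS_mem {T : A → ℂ} {κ : ℕ} {H : ℝ} {c : A → ℤ} (h : c ∈ NV T κ H) : rat c ∈ NS T κ H :=
  Submodule.subset_span ⟨c, h, rfl⟩

lemma NV_anti {T : A → ℂ} {κ κ' : ℕ} {H : ℝ} (hH : 1 ≤ H) (h : κ ≤ κ') : NV T κ' H ⊆ NV T κ H := by
  intro c hc
  refine ⟨hc.1, hc.2.trans ?_⟩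
  exact one_div_le_one_div_of_le (by positivity) (pow_le_pow_right₀ hH h)

lemma NS_anti {T : A → ℂ} {κ κ' : ℕ} {H : ℝ} (hH : 1 ≤ H) (h : κ ≤ κ') : NS T κ' H ≤ NS T κ H :=
  Submodule.span_mono (Set.image_mono (NV_anti hH h))

/-- relations are near relations -/
lemma RS_le (T : A → ℂ) (κ : ℕ) : ∃ h₀ : ℝ, ∀ H : ℝ, h₀ ≤ H → RS T ≤ NS T κ H := by
  obtain ⟨r, hr, -, hspan⟩ := exists_basis (RS T)
  refine ⟨1 + ∑ t, ∑ a, |(r t a : ℝ)|, fun H hH => ?_⟩
  have hs : 0 ≤ ∑ t, ∑ a, |(r t a : ℝ)| :=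
    Finset.sum_nonneg fun _ _ => Finset.sum_nonneg fun _ _ => abs_nonneg _
  have hH0 : 0 < H := by linarith
  rw [← hspan, Submodule.span_le]
  rintro _ ⟨t, rfl⟩
  refine NS_mem ⟨fun a => ?_, ?_⟩
  · have h1 : |(r t a : ℝ)| ≤ ∑ t, ∑ a, |(r t a : ℝ)| := by
      refine le_trans ?_ (Finset.single_le_sum (f := fun t => ∑ a, |(r t a : ℝ)|)
        (fun _ _ => Finset.sum_nonneg fun _ _ => abs_nonneg _) (Finset.mem_univ t))
      exact Finset.single_le_sum (f := fun a => |(r t a : ℝ)|) (fun _ _ => abs_nonneg _)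
        (Finset.mem_univ a)
    linarith
  · rw [mem_RS_rat.1 (hr t), norm_zero]
    positivity

/-- the sum of the dimensions -/
noncomputable def tot (u : A → ℂ) (T : J → A → ℂ) (κ : ℕ) (H : ℝ) : ℕ :=
  Module.finrank ℚ (RS u) + ∑ j, Module.finrank ℚ (NS (T j) κ H)

/-- the law of the near relations -/
def LawN (E κ : ℕ) (u : A → ℂ) (T : J → A → ℂ) : Prop :=
  (∃ H₀ : ℝ, ∀ H : ℝ, H₀ ≤ H →
    (∀ r ∈ RS u, ∀ c : J → A → ℚ, (∀ j, c j ∈ NS (T j) κ H) → r + ∑ j, c j = 0 →
      r = 0 ∧ ∀ j, c j = 0) ∧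
    tot u T κ H ≤ Fintype.card A ∧
    (tot u T κ H = Fintype.card A →
      (∀ Y : ℝ, H ≤ Y → ∀ j, NS (T j) κ Y = RS (T j)) ∨
      ∃ Z : ℝ, H ≤ Z ∧ (∀ Y : ℝ, H ≤ Y → Y ≤ Z → ∀ j, NS (T j) κ Y ≤ NS (T j) κ H) ∧
        ∀ Y : ℝ, Z < Y → Y ≤ Z ^ E → tot u T κ Y < Fintype.card A)) ∧
  ((Module.finrank ℚ (RS u) + ∑ j, Module.finrank ℚ (RS (T j)) = Fintype.card A) ↔
    ∃ H₁ : ℝ, ∀ H : ℝ, H₁ ≤ H → tot u T κ H = Fintype.card A)

/-- the direct sum -/
theorem direct {W : A → Prop} {u : A → ℂ} {v : J → A → ℂ} {k₀ : ℕ} {c₀ : ℝ}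
    (h : Hyp W u v k₀ c₀) : ∃ k₁ : ℕ, ∃ h₁ : ℝ, 1 ≤ h₁ ∧ ∀ κ : ℕ, k₁ ≤ κ → ∀ H : ℝ, h₁ ≤ H →
      (∀ r ∈ RS u, ∀ c : J → A → ℚ, (∀ j, c j ∈ NS (fun a => u a - v j a) κ H) →
        r + ∑ j, c j = 0 → r = 0 ∧ ∀ j, c j = 0) ∧
      tot u (fun j a => u a - v j a) κ H ≤ Fintype.card A := by
  classical
  obtain ⟨r, hr, hri, hspan⟩ := exists_basis (RS u)
  obtain ⟨k₁, h₁, hh₁, hk⟩ := key h r hr hri
  refine ⟨k₁, h₁, hh₁, fun κ hκ H hH => ?_⟩
  have hH1 : 1 ≤ H := hh₁.trans hH
  choose b hb hbi hbs using fun j => exists_near_basis (fun a => u a - v j a) κ H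
  have hli := hk H hH _ b (fun j s a => (hb j s).1 a) (fun j s => (NV_anti hH1 hκ (hb j s)).2) hbi
  refine ⟨fun x hx c hc hsum => ?_, ?_⟩
  · rw [← hspan] at hx
    obtain ⟨α, hα⟩ := (Submodule.mem_span_range_iff_exists_fun ℚ).1 hx
    have hc' : ∀ j, ∃ β : Fin (Module.finrank ℚ (NS (fun a => u a - v j a) κ H)) → ℚ,
        ∑ s, β s • rat (b j s) = c j := fun j => by
      have h1 := hc j
      rw [← hbs j] at h1
      exact (Submodule.mem_span_range_iff_exists_fun ℚ).1 h1
    choose β hβ using hc'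
    have h1 := Fintype.linearIndependent_iff.1 hli (Sum.elim α fun q => β q.1 q.2) (by
      rw [Fintype.sum_sum_type, Fintype.sum_sigma]
      simp only [Sum.elim_inl, Sum.elim_inr]
      rw [hα, Finset.sum_congr rfl fun j _ => hβ j]
      exact hsum)
    refine ⟨?_, fun j => ?_⟩
    · rw [← hα]
      exact Finset.sum_eq_zero fun t _ => by
        have h2 : α t = 0 := h1 (Sum.inl t)
        rw [h2, zero_smul]
    · rw [← hβ j]
      exact Finset.sum_eq_zero fun s _ => by
        have h2 : β j s = 0 := h1 (Sum.inr ⟨j, s⟩)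
        rw [h2, zero_smul]
  · have h1 := hli.fintype_card_le_finrank
    rw [Module.finrank_fintype_fun_eq_card, Fintype.card_sum, Fintype.card_sigma] at h1
    simp only [Fintype.card_fin] at h1
    exact h1

/-- **The law of the near relations.** -/
theorem law {W : A → Prop} {u : A → ℂ} {v : J → A → ℂ} {k₀ : ℕ} {c₀ : ℝ}
    (h : Hyp W u v k₀ c₀) (E : ℕ) (hE : 2 ≤ E) :
    ∃ κ : ℕ, LawN E κ u (fun j a => u a - v j a) := by
  classical
  obtain ⟨k₁, h₁, hh₁, hdir⟩ := direct h
  obtain ⟨T, hT⟩ : ∃ T : J → A → ℂ, T = fun j a => u a - v j a := ⟨_, rfl⟩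
  have hT' : ∀ j, (fun a => u a - v j a) = T j := fun j => by rw [hT]
  rw [← hT]
  simp only [hT'] at hdir
  rw [← hT] at hdir
  obtain ⟨cA, hcA⟩ : ∃ cA : ℕ, cA = Fintype.card A := ⟨_, rfl⟩
  obtain ⟨w, hw⟩ : ∃ w : ℕ, w = E * k₁ + k₁ + 1 := ⟨_, rfl⟩
  obtain ⟨κ, hκ⟩ : ∃ κ : ℕ, κ = w + cA + 1 := ⟨_, rfl⟩
  have hκ1 : k₁ ≤ κ := by rw [hκ, hw]; nlinarith
  obtain ⟨C, hC⟩ : ∃ C : ℝ, C = ((cA : ℝ) + 1) ^ (cA + 1) := ⟨_, rfl⟩
  have hC0 : 0 < C := by rw [hC]; positivity
  obtain ⟨H₀, hH₀⟩ : ∃ H₀ : ℝ, H₀ = h₁ + C + 1 := ⟨_, rfl⟩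
  -- spaces at larger scales
  have ext : ∀ H Y : ℝ, h₁ ≤ H → H ≤ Y → tot u T κ H = Fintype.card A →
      (∀ j, NS (T j) κ H ≤ NS (T j) k₁ Y) → ∀ j, NS (T j) κ Y ≤ NS (T j) κ H := by
    intro H Y hH hHY htot hle j
    have h1 := (hdir k₁ le_rfl Y (hH.trans hHY)).2
    have h2 : Module.finrank ℚ (NS (T j) κ H) = Module.finrank ℚ (NS (T j) k₁ Y) := by
      refine le_antisymm (Submodule.finrank_mono (hle j)) ?_
      by_contra hcon
      push Not at hcon
      have h3 : ∑ j, Module.finrank ℚ (NS (T j) κ H) < ∑ j, Module.finrank ℚ (NS (T j) k₁ Y) :=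
        Finset.sum_lt_sum (fun j _ => Submodule.finrank_mono (hle j)) ⟨j, Finset.mem_univ j, hcon⟩
      rw [tot] at h1 htot
      omega
    rw [Submodule.eq_of_le_of_finrank_eq (hle j) h2]
    exact NS_anti (hh₁.trans (hH.trans hHY)) hκ1
  have main : ∀ H : ℝ, H₀ ≤ H → tot u T κ H = Fintype.card A →
      (∀ Y : ℝ, H ≤ Y → ∀ j, NS (T j) κ Y = RS (T j)) ∨
      ∃ Z : ℝ, H ≤ Z ∧ (∀ Y : ℝ, H ≤ Y → Y ≤ Z → ∀ j, NS (T j) κ Y ≤ NS (T j) κ H) ∧
        ∀ Y : ℝ, Z < Y → Y ≤ Z ^ E → tot u T κ Y < Fintype.card A := by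
    intro H hH htot
    have hHh : h₁ ≤ H := by linarith
    have hH1 : 1 ≤ H := hh₁.trans hHh
    choose b hb hbi hbs using fun j => exists_near_basis (T j) κ H
    have hle : ∀ Y : ℝ, H ≤ Y → (∀ j s, ‖lf (T j) (b j s)‖ ≤ 1 / Y ^ k₁) →
        ∀ j, NS (T j) κ H ≤ NS (T j) k₁ Y := by
      intro Y hY hs j
      rw [← hbs j, Submodule.span_le]
      rintro _ ⟨s, rfl⟩
      exact NS_mem ⟨fun a => ((hb j s).1 a).trans hY, hs j s⟩
    by_cases hall : ∀ j s, lf (T j) (b j s) = 0
    · left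
      have hext : ∀ Y : ℝ, H ≤ Y → ∀ j, NS (T j) κ Y ≤ NS (T j) κ H := fun Y hY =>
        ext H Y hHh hY htot (hle Y hY fun j s => by
          rw [hall, norm_zero]
          have : 0 < Y := by linarith
          positivity)
      have h1 : ∀ j, NS (T j) κ H ≤ RS (T j) := by
        intro j
        rw [← hbs j, Submodule.span_le]
        rintro _ ⟨s, rfl⟩
        exact mem_RS_rat.2 (hall j s)
      have h2 : ∀ j, RS (T j) ≤ NS (T j) κ H := by
        intro j
        obtain ⟨h₀, hh₀⟩ := RS_le (T j) κ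
        exact (hh₀ _ (le_max_left h₀ H)).trans (hext _ (le_max_right _ _) j)
      intro Y hY j
      refine le_antisymm ((hext Y hY j).trans (h1 j)) ((h2 j).trans ?_)
      rw [← hbs j, Submodule.span_le]
      rintro _ ⟨s, rfl⟩
      refine NS_mem ⟨fun a => ((hb j s).1 a).trans hY, ?_⟩
      rw [hall, norm_zero]
      have : 0 < Y := by linarith
      positivity
    · right
      push Not at hall
      obtain ⟨j₁, s₁, hne⟩ := hall
      obtain ⟨e, he⟩ : ∃ e : ((j : J) × Fin (Module.finrank ℚ (NS (T j) κ H))) → ℝ,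
          e = fun q => ‖lf (T q.1) (b q.1 q.2)‖ := ⟨_, rfl⟩
      obtain ⟨q₀, -, hmax⟩ := Finset.exists_max_image Finset.univ e ⟨⟨j₁, s₁⟩, Finset.mem_univ _⟩
      have hpos : 0 < e q₀ := by
        refine lt_of_lt_of_le ?_ (hmax ⟨j₁, s₁⟩ (Finset.mem_univ _))
        rw [he]
        exact norm_pos_iff.2 hne
      have hw0 : w ≠ 0 := by omega
      obtain ⟨Z, hZ⟩ : ∃ Z : ℝ, Z = (1 / e q₀) ^ ((w : ℝ)⁻¹) := ⟨_, rfl⟩
      have hZ0 : 0 < Z := by rw [hZ]; positivity
      have hZW : Z ^ w = 1 / e q₀ := by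
        rw [hZ]; exact Real.rpow_inv_natCast_pow (by positivity) hw0
      have hpZ : e q₀ = 1 / Z ^ w := by rw [hZW]; simp
      have he₀ : e q₀ < 1 / H ^ w := by
        have h1 : e q₀ ≤ 1 / H ^ κ := by
          rw [he]
          exact (hb q₀.1 q₀.2).2
        refine h1.trans_lt ?_
        refine one_div_lt_one_div_of_lt (by positivity) ?_
        exact pow_lt_pow_right₀ (by linarith) (by rw [hκ]; omega)
      have hHZ : H ≤ Z := by
        by_contra hcon
        push Not at hcon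
        have h3 : Z ^ w < H ^ w := pow_lt_pow_left₀ hcon hZ0.le hw0
        have h4 : 1 / H ^ w < 1 / Z ^ w := one_div_lt_one_div_of_lt (by positivity) h3
        rw [← hpZ] at h4
        linarith
      have hZ1 : 1 ≤ Z := hH1.trans hHZ
      refine ⟨Z, hHZ, fun Y hHY hYZ => ext H Y hHh hHY htot (hle Y hHY fun j s => ?_),
        fun Y hZY hYE => ?_⟩
      · have hY1 : 1 ≤ Y := hH1.trans hHY
        have h1 : ‖lf (T j) (b j s)‖ ≤ e q₀ := by
          have := hmax ⟨j, s⟩ (Finset.mem_univ _)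
          rw [he] at this ⊢
          exact this
        refine h1.trans ?_
        rw [hpZ]
        refine one_div_le_one_div_of_le (by positivity) ?_
        calc Y ^ k₁ ≤ Z ^ k₁ := pow_le_pow_left₀ (by linarith) hYZ _
          _ ≤ Z ^ w := pow_le_pow_right₀ hZ1 (by rw [hw]; nlinarith)
      · have hHY : H ≤ Y := by linarith
        have hY1 : 1 ≤ Y := hH1.trans hHY
        have hY0 : 0 < Y := by linarith
        have hsub := ext H Y hHh hHY htot (hle Y hHY fun j s => by
          have h1 : ‖lf (T j) (b j s)‖ ≤ e q₀ := by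
            have := hmax ⟨j, s⟩ (Finset.mem_univ _)
            rw [he] at this ⊢
            exact this
          refine h1.trans ?_
          rw [hpZ]
          refine one_div_le_one_div_of_le (by positivity) ?_
          calc Y ^ k₁ ≤ (Z ^ E) ^ k₁ := pow_le_pow_left₀ hY0.le hYE _
            _ = Z ^ (E * k₁) := by rw [pow_mul]
            _ ≤ Z ^ w := pow_le_pow_right₀ hZ1 (by rw [hw]; omega))
        refine lt_of_le_of_ne (hdir κ hκ1 Y (hHh.trans hHY)).2 fun htotY => ?_
        -- equal spaces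
        have heq : NS (T q₀.1) κ Y = NS (T q₀.1) κ H := by
          refine Submodule.eq_of_le_of_finrank_eq (hsub q₀.1) ?_
          refine le_antisymm (Submodule.finrank_mono (hsub q₀.1)) ?_
          by_contra hcon
          push Not at hcon
          have h3 : ∑ j, Module.finrank ℚ (NS (T j) κ Y) < ∑ j, Module.finrank ℚ (NS (T j) κ H) :=
            Finset.sum_lt_sum (fun j _ => Submodule.finrank_mono (hsub j))
              ⟨q₀.1, Finset.mem_univ _, hcon⟩
          rw [tot] at htotY htot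
          omega
        obtain ⟨c, hc, hci, hcs⟩ := exists_near_basis (T q₀.1) κ Y
        obtain ⟨m, hm⟩ : ∃ m : ℕ, m = Module.finrank ℚ (NS (T q₀.1) κ Y) := ⟨_, rfl⟩
        have hbmem : rat (b q₀.1 q₀.2) ∈ Submodule.span ℚ (Set.range fun s => rat (c s)) := by
          rw [hcs, heq]
          exact NS_mem (hb q₀.1 q₀.2)
        have hmA : m ≤ cA := by
          have h1 := hci.fintype_card_le_finrank
          rw [Module.finrank_fintype_fun_eq_card, Fintype.card_fin, ← hm, ← hcA] at h1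
          exact h1
        obtain ⟨vec, hvec⟩ : ∃ vec : Option (Fin (Module.finrank ℚ (NS (T q₀.1) κ Y))) → A → ℤ,
            vec = fun o => o.elim (b q₀.1 q₀.2) c := ⟨_, rfl⟩
        have hdep : ¬ LinearIndependent ℚ (fun o a => (vec o a : ℚ)) := by
          intro hli
          have h1 : LinearIndependent ℚ (fun o : Option (Fin (Module.finrank ℚ
              (NS (T q₀.1) κ Y))) => (o.casesOn' (rat (b q₀.1 q₀.2)) (fun s => rat (c s)) :
                A → ℚ)) := by
            have e : (fun o : Option (Fin (Module.finrank ℚ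
              (NS (T q₀.1) κ Y))) => (o.casesOn' (rat (b q₀.1 q₀.2)) (fun s => rat (c s)) :
                A → ℚ)) = fun o a => (vec o a : ℚ) := by
              funext o
              rw [hvec]
              rcases o with _ | s <;> rfl
            rw [e]
            exact hli
          exact (linearIndependent_option'.1 h1).2 hbmem
        obtain ⟨l, hl0, hlb, hl⟩ := small_kernel vec Y hY1 (by
          rintro (_ | s) a
          · rw [hvec]; exact ((hb q₀.1 q₀.2).1 a).trans hHY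
          · rw [hvec]; exact (hc s).1 a) hdep
        have hl1 : ∀ a, l none * b q₀.1 q₀.2 a + ∑ s, l (some s) * c s a = 0 := by
          intro a
          have h1 := hl a
          rw [Fintype.sum_option, hvec] at h1
          exact h1
        have hln : l none ≠ 0 := by
          intro h0
          refine hl0 (funext fun o => ?_)
          rcases o with _ | s
          · exact h0
          · have h1 := Fintype.linearIndependent_iff.1 hci (fun s => (l (some s) : ℚ)) (by
              funext a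
              have h2 := hl1 a
              rw [h0, zero_mul, zero_add] at h2
              rw [Finset.sum_apply]
              have h3 : ∑ s, (l (some s) : ℚ) * (c s a : ℚ) = 0 := by exact_mod_cast h2
              exact h3) s
            exact_mod_cast h1
        have hval : (l none : ℂ) * lf (T q₀.1) (b q₀.1 q₀.2) =
            -∑ s, (l (some s) : ℂ) * lf (T q₀.1) (c s) := by
          have h1 : (l none : ℂ) * lf (T q₀.1) (b q₀.1 q₀.2) +
              ∑ s, (l (some s) : ℂ) * lf (T q₀.1) (c s) = 0 := by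
            simp only [lf, Finset.mul_sum]
            rw [Finset.sum_comm, ← Finset.sum_add_distrib]
            refine Finset.sum_eq_zero fun a _ => ?_
            have h2 : (l none : ℂ) * (b q₀.1 q₀.2 a : ℂ) + ∑ s, (l (some s) : ℂ) * (c s a : ℂ) = 0 := by
              exact_mod_cast congrArg (fun z : ℤ => (z : ℂ)) (hl1 a)
            calc (l none : ℂ) * ((b q₀.1 q₀.2 a : ℂ) * T q₀.1 a) +
                  ∑ s, (l (some s) : ℂ) * ((c s a : ℂ) * T q₀.1 a) =
                  ((l none : ℂ) * (b q₀.1 q₀.2 a : ℂ) + ∑ s, (l (some s) : ℂ) * (c s a : ℂ)) *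
                    T q₀.1 a := by
                  rw [add_mul, Finset.sum_mul]
                  congr 1
                  · ring
                  · exact Finset.sum_congr rfl fun s _ => by ring
              _ = 0 := by rw [h2, zero_mul]
          exact eq_neg_of_add_eq_zero_left h1
        have hLb : ∀ o, |(l o : ℝ)| ≤ (((cA : ℝ) + 1) * Y) ^ cA := by
          intro o
          refine (hlb o).trans ?_
          rw [← hcA]
          refine pow_le_pow_left₀ (by positivity) (mul_le_mul_of_nonneg_right ?_ hY0.le) _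
          rw [Fintype.card_option, Fintype.card_fin, ← hm]
          exact_mod_cast Nat.succ_le_succ hmA
        have hfin : e q₀ ≤ C / Y ^ (w + 1) := by
          have h1 : e q₀ ≤ ‖(l none : ℂ) * lf (T q₀.1) (b q₀.1 q₀.2)‖ := by
            rw [norm_mul, Complex.norm_intCast, he]
            have : (1 : ℝ) ≤ |(l none : ℝ)| := by exact_mod_cast Int.one_le_abs hln
            exact le_mul_of_one_le_left (norm_nonneg _) this
          refine h1.trans ?_
          rw [hval, norm_neg]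
          calc ‖∑ s, (l (some s) : ℂ) * lf (T q₀.1) (c s)‖ ≤
                ∑ s, ‖(l (some s) : ℂ) * lf (T q₀.1) (c s)‖ := norm_sum_le _ _
            _ ≤ ∑ _s : Fin (Module.finrank ℚ (NS (T q₀.1) κ Y)),
                (((cA : ℝ) + 1) * Y) ^ cA * (1 / Y ^ κ) := by
                refine Finset.sum_le_sum fun s _ => ?_
                rw [norm_mul, Complex.norm_intCast]
                exact mul_le_mul (hLb _) (hc s).2 (norm_nonneg _) (by positivity)
            _ = (m : ℝ) * ((((cA : ℝ) + 1) * Y) ^ cA * (1 / Y ^ κ)) := by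
                rw [Finset.sum_const, Finset.card_univ, Fintype.card_fin, nsmul_eq_mul, ← hm]
            _ ≤ ((cA : ℝ) + 1) * ((((cA : ℝ) + 1) * Y) ^ cA * (1 / Y ^ κ)) := by
                refine mul_le_mul_of_nonneg_right ?_ (by positivity)
                have : (m : ℝ) ≤ cA := by exact_mod_cast hmA
                linarith
            _ = C / Y ^ (w + 1) := by
                rw [hC, mul_pow, hκ]
                have : w + cA + 1 = (w + 1) + cA := by omega
                rw [this, pow_add Y (w + 1) cA, pow_succ ((cA : ℝ) + 1) cA]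
                field_simp
        rw [hpZ] at hfin
        have h5 : 1 / Y ^ w < 1 / Z ^ w :=
          one_div_lt_one_div_of_lt (by positivity) (pow_lt_pow_left₀ hZY hZ0.le hw0)
        have h6 : 1 / Y ^ w < C / Y ^ (w + 1) := h5.trans_le hfin
        rw [pow_succ, div_lt_div_iff₀ (by positivity) (by positivity), one_mul,
          mul_comm (Y ^ w) Y] at h6
        have h7 : Y < C := lt_of_mul_lt_mul_right h6 (by positivity)
        linarith
  refine ⟨κ, ⟨H₀, fun H hH => ⟨(hdir κ hκ1 H (by linarith)).1, (hdir κ hκ1 H (by linarith)).2,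
    main H hH⟩⟩, ?_, ?_⟩
  · intro heq
    choose g hg using fun j => RS_le (T j) κ
    refine ⟨H₀ + ∑ j, |g j|, fun H hH => ?_⟩
    have hs : 0 ≤ ∑ j, |g j| := Finset.sum_nonneg fun _ _ => abs_nonneg _
    refine le_antisymm (hdir κ hκ1 H (by linarith)).2 ?_
    rw [← heq, tot]
    refine Nat.add_le_add_left (Finset.sum_le_sum fun j _ => ?_) _
    refine Submodule.finrank_mono (hg j H ?_)
    have h1 : |g j| ≤ ∑ j, |g j| :=
      Finset.single_le_sum (f := fun j => |g j|) (fun _ _ => abs_nonneg _) (Finset.mem_univ j)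
    have h2 := le_abs_self (g j)
    linarith
  · rintro ⟨H₁, h1⟩
    obtain ⟨H, hHd⟩ : ∃ H : ℝ, H = max (max H₀ H₁) 2 := ⟨_, rfl⟩
    have hHH₀ : H₀ ≤ H := by rw [hHd]; exact (le_max_left _ _).trans (le_max_left _ _)
    have hHH₁ : H₁ ≤ H := by rw [hHd]; exact (le_max_right _ _).trans (le_max_left _ _)
    have hH2 : 2 ≤ H := by rw [hHd]; exact le_max_right _ _
    rcases main H hHH₀ (h1 H hHH₁) with h2 | ⟨Z, hZ, -, h3⟩
    · have h4 := h1 H hHH₁
      rw [tot] at h4
      rw [← h4]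
      congr 1
      exact Finset.sum_congr rfl fun j _ => by rw [h2 H le_rfl j]
    · exfalso
      have hZ2 : 2 ≤ Z := hH2.trans hZ
      have hlt : Z < Z ^ E := by
        calc Z < Z ^ 2 := by nlinarith
          _ ≤ Z ^ E := pow_le_pow_right₀ (by linarith) hE
      have h6 := h3 (Z ^ E) hlt le_rfl
      have h7 := h1 (Z ^ E) (by linarith)
      omega

end Pool.Agent.H488.W
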