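import Pool.Agent.H488.W.Sm
import Pool.Agent.H488.W.Law
import Pool.Agent.H488.L.Mz

/-!
# Near linear relations between damped multiple zeta values
-/

set_option autoImplicit false

namespace Pool.Agent.H488.W

open Pool.Agent.H488.M (Bd)
open Pool.Agent.N902.EW
open Pool.Agent.N778

/-- linear forms -/
lemma semi_lin {σ : Type} [Fintype σ] {θ : σ → ℂ} (h : Semi θ) :
    ∃ κ : ℕ, ∃ c : ℝ, 0 < c ∧ ∀ μ : σ → ℤ, ∀ H : ℝ, 1 ≤ H → (∀ i, |(μ i : ℝ)| ≤ H) →
      ∑ i, (μ i : ℂ) * θ i ≠ 0 → c ≤ H ^ κ * ‖∑ i, (μ i : ℂ) * θ i‖ := by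
  classical
  obtain ⟨κ, c, hc, hk⟩ := h 1
  refine ⟨κ, c, hc, fun μ H hH hμ hne => ?_⟩
  obtain ⟨P, hP⟩ : ∃ P : MvPolynomial σ ℤ, P = ∑ i, MvPolynomial.monomial (Finsupp.single i 1) (μ i) :=
    ⟨_, rfl⟩
  have hval : MvPolynomial.aeval θ P = ∑ i, (μ i : ℂ) * θ i := by
    rw [hP, map_sum]
    refine Finset.sum_congr rfl fun i _ => ?_
    rw [MvPolynomial.aeval_monomial]
    have h1 : ((Finsupp.single i 1).prod fun i k => θ i ^ k) = θ i := by
      rw [Finsupp.prod_single_index] <;> simp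
    rw [h1]
    rfl
  have hco : ∀ m, P.coeff m ≠ 0 → ∃ i, m = Finsupp.single i 1 := by
    intro m hm
    rw [hP, MvPolynomial.coeff_sum] at hm
    obtain ⟨i, -, hi⟩ := Finset.exists_ne_zero_of_sum_ne_zero hm
    rw [MvPolynomial.coeff_monomial] at hi
    refine ⟨i, ?_⟩
    by_contra hcon
    rw [if_neg (fun h => hcon h.symm)] at hi
    exact hi rfl
  have hcoi : ∀ i, P.coeff (Finsupp.single i 1) = μ i := by
    intro i
    rw [hP, MvPolynomial.coeff_sum, Finset.sum_eq_single i]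
    · rw [MvPolynomial.coeff_monomial, if_pos rfl]
    · intro j _ hj
      rw [MvPolynomial.coeff_monomial, if_neg]
      intro h1
      exact hj (Finsupp.single_left_injective one_ne_zero h1)
    · intro h1
      exact absurd (Finset.mem_univ i) h1
  rw [← hval] at hne ⊢
  refine hk P hne H hH ⟨fun o => ?_, fun m => ?_⟩
  · rw [MvPolynomial.degreeOf_le_iff]
    intro m hm
    obtain ⟨i, rfl⟩ := hco m (MvPolynomial.mem_support_iff.1 hm)
    rw [Finsupp.single_apply]
    split_ifs <;> omega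
  · by_cases hm : P.coeff m = 0
    · rw [hm, Int.cast_zero, abs_zero]; linarith
    · obtain ⟨i, rfl⟩ := hco m hm
      rw [hcoi]
      exact hμ i

/-- the ring of exponential polynomials -/
noncomputable def ER : Subalgebra ℚ ℂ := Algebra.adjoin ℚ
  ({z | IsAlgebraic ℚ z} ∪ {z | ∃ b : ℂ, IsAlgebraic ℚ b ∧ z = Complex.exp b})

lemma ER_L0 {z : ℂ} (hz : z ∈ ER) : z ∈ MZ.L0 := by
  have h : ER ≤ MZ.L0.toSubalgebra := by
    rw [ER, Algebra.adjoin_le_iff]
    exact IntermediateField.subset_adjoin ℚ _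
  exact h hz

lemma ER_range {z : ℂ} (hz : z ∈ ER) : z ∈ (evA io).range := by
  refine L.mem_range_of_Gr ?_
  refine Algebra.adjoin_mono ?_ hz
  rintro z (hz | hz)
  · exact Or.inl (Or.inl hz)
  · exact Or.inl (Or.inr hz)

lemma S_range {w : List ℕ} (hw : ∀ k ∈ w, 1 ≤ k) {x : ℂ} (hx : IsAlgebraic ℚ x) (hx0 : x ≠ 0) :
    MZ.S w x ∈ (evA io).range := by
  obtain ⟨f, hf⟩ := mem_range_io hx
  have hf0 : f ≠ 0 := by
    intro h
    rw [h, map_zero] at hf
    exact hx0 hf.symm
  refine ⟨MZ.FdA f hf0 (w.map (· - 1)), ?_⟩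
  rw [MZ.Sn_eq hw, MZ.FdA, MZ.evA_Fd hf0, hf]

variable {I J : Type} [Fintype I] [Fintype J] {n q : ℕ}

/-- the numbers `β_l S_w(x)` are linearly independent -/
lemma li_bS {β : Fin q → ℂ} (hβ : ∀ l, β l ∈ ER) (hβi : LinearIndependent ℚ β)
    {w : Fin n → List ℕ} (hw : ∀ a, MZ.AdW (w a)) (hwi : Function.Injective w)
    {x : J → ℂ} (hx : ∀ j, IsAlgebraic ℚ (x j) ∧ x j ≠ 0) (hxi : Function.Injective x) :
    LinearIndependent ℚ (fun p : Fin q × (J × Fin n) => β p.1 * MZ.S (w p.2.2) (x p.2.1)) := by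
  obtain ⟨X, hX⟩ : ∃ X : Set ℂ, X = {x | IsAlgebraic ℚ x ∧ x ≠ 0} := ⟨_, rfl⟩
  have h1 := MZ.li_Sn X fun x hx => by rw [hX] at hx; exact hx
  obtain ⟨g, hg⟩ : ∃ g : J × Fin n → {p : List ℕ × ℂ // MZ.Wo p.1 ∧ p.2 ∈ X}, g = fun p =>
      ⟨(w p.2, x p.1), (hw _).wo, by rw [hX]; exact hx _⟩ := ⟨_, rfl⟩
  have hgi : Function.Injective g := by
    rintro ⟨j, a⟩ ⟨j', a'⟩ h
    rw [hg] at h
    have h2 := congrArg Subtype.val h
    have e1 : w a = w a' := congrArg Prod.fst h2
    have e2 : x j = x j' := congrArg Prod.snd h2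
    rw [hwi e1, hxi e2]
  have h2 := h1.comp (fun p => some (g p)) ((Option.some_injective _).comp hgi)
  obtain ⟨β', hβ'⟩ : ∃ β' : Fin q → MZ.L0, β' = fun l => ⟨β l, ER_L0 (hβ l)⟩ := ⟨_, rfl⟩
  have h3 : LinearIndependent ℚ β' := by
    refine LinearIndependent.of_comp (MZ.L0.val.toLinearMap) ?_
    have e : (MZ.L0.val.toLinearMap : MZ.L0 → ℂ) ∘ β' = β := by
      funext l
      rw [hβ']
      rfl
    rw [e]
    exact hβi
  have h4 := linearIndependent_smul h3 h2
  have e : (fun p : Fin q × (J × Fin n) => β' p.1 • ((fun o : Option {p : List ℕ × ℂ // MZ.Wo p.1 ∧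
      p.2 ∈ X} => (o.elim 1 (fun p => MZ.S p.1.1 p.1.2) : ℂ)) ∘ fun p => some (g p)) p.2) =
      fun p : Fin q × (J × Fin n) => β p.1 * MZ.S (w p.2.2) (x p.2.1) := by
    funext p
    rw [hβ', hg]
    rfl
  rw [e] at h4
  exact h4

/-- the numbers `β_l ζ(w_a)`, and `β_l` -/
noncomputable def uu (β : Fin q → ℂ) (w : Fin n → List ℕ) (e : I → Option (Fin n)) (p : I × Fin q) : ℂ :=
  β p.2 * (e p.1).elim 1 fun a => MZ.zt (w a)

/-- the numbers `β_l S_w(x)`, and `0` -/
noncomputable def vv (β : Fin q → ℂ) (w : Fin n → List ℕ) (e : I → Option (Fin n)) (x : J → ℂ) (j : J)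
    (p : I × Fin q) : ℂ := β p.2 * (e p.1).elim 0 fun a => MZ.S (w a) (x j)

/-- the numbers `β_l T_w(x)`, and `β_l` -/
noncomputable def tt (β : Fin q → ℂ) (w : Fin n → List ℕ) (e : I → Option (Fin n)) (x : ℂ)
    (p : I × Fin q) : ℂ := β p.2 * (e p.1).elim 1 fun a => MZ.T (w a) x

theorem hyp_mzv {β : Fin q → ℂ} (hβ : ∀ l, β l ∈ ER) (hβi : LinearIndependent ℚ β)
    {w : Fin n → List ℕ} (hw : ∀ a, MZ.AdW (w a)) (hwi : Function.Injective w)
    {x : J → ℂ} (hx : ∀ j, IsAlgebraic ℚ (x j) ∧ x j ≠ 0) (hxi : Function.Injective x)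
    (e : I → Option (Fin n)) (he : Function.Injective e) :
    ∃ (k₀ : ℕ) (c₀ : ℝ), Hyp (fun p : I × Fin q => e p.1 ≠ none) (uu β w e) (vv β w e x) k₀ c₀ := by
  classical
  have hr0 : (0 : ℂ) ∈ (evA io).range := Subring.zero_mem _
  obtain ⟨κ₁, c₁, hc₁, h₁⟩ := semi_lin (semi_range (fun o : J × (I × Fin q) => vv β w e x o.1 o.2) (by
    rintro ⟨j, i, l⟩
    show β l * (e i).elim 0 (fun a => MZ.S (w a) (x j)) ∈ _
    refine Subring.mul_mem _ (ER_range (hβ l)) ?_
    rcases e i with _ | a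
    · exact hr0
    · exact S_range (hw a).wo.2 (hx j).1 (hx j).2))
  obtain ⟨θ, hθ⟩ : ∃ θ : I × Fin q → ℂ, θ = fun p => if e p.1 = none then β p.2 else 0 := ⟨_, rfl⟩
  obtain ⟨κ₂, c₂, hc₂, h₂⟩ := semi_lin (semi_range θ (by
    intro p
    rw [hθ]
    show (if e p.1 = none then β p.2 else 0) ∈ _
    split_ifs
    · exact ER_range (hβ _)
    · exact hr0))
  refine ⟨max κ₁ κ₂, min c₁ c₂, lt_min hc₁ hc₂, fun μ H hH hμ hne => ?_, fun μ hμ j p hp => ?_,
    fun j p hp => ?_, fun c hc hcW H hH hcH => ?_⟩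
  · have e1 : ∑ j, ∑ a, (μ j a : ℂ) * vv β w e x j a =
        ∑ o : J × (I × Fin q), (μ o.1 o.2 : ℂ) * vv β w e x o.1 o.2 := by
      rw [Fintype.sum_prod_type]
    rw [e1] at hne ⊢
    refine (min_le_left _ _).trans ((h₁ (fun o => μ o.1 o.2) H hH (fun o => hμ _ _) hne).trans ?_)
    exact mul_le_mul_of_nonneg_right (pow_le_pow_right₀ hH (le_max_left _ _)) (norm_nonneg _)
  · obtain ⟨a₀, ha₀⟩ := Option.ne_none_iff_exists'.1 hp
    have hli := li_bS hβ hβi hw hwi hx hxi
    have h3 := Fintype.linearIndependent_iff.1 hli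
      (fun o => ∑ i, if e i = some o.2.2 then (μ o.2.1 (i, o.1) : ℚ) else 0) (by
      rw [← hμ]
      have e2 : ∀ o : Fin q × (J × Fin n), (∑ i, if e i = some o.2.2 then (μ o.2.1 (i, o.1) : ℚ) else 0) •
          (β o.1 * MZ.S (w o.2.2) (x o.2.1)) = ∑ i, if e i = some o.2.2 then
            (μ o.2.1 (i, o.1) : ℂ) * (β o.1 * MZ.S (w o.2.2) (x o.2.1)) else 0 := by
        intro o
        rw [Rat.smul_def]
        push_cast
        rw [Finset.sum_mul]
        refine Finset.sum_congr rfl fun i _ => ?_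
        split_ifs
        · rfl
        · rw [Rat.cast_zero, zero_mul]
      rw [Finset.sum_congr rfl fun o _ => e2 o, Fintype.sum_prod_type]
      simp only [Fintype.sum_prod_type]
      rw [Finset.sum_comm]
      refine Finset.sum_congr rfl fun j' _ => ?_
      have e3 : ∀ l : Fin q, ∑ a : Fin n, ∑ i, (if e i = some a then
          (μ j' (i, l) : ℂ) * (β l * MZ.S (w a) (x j')) else 0) =
          ∑ i, (μ j' (i, l) : ℂ) * vv β w e x j' (i, l) := by
        intro l
        rw [Finset.sum_comm]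
        refine Finset.sum_congr rfl fun i _ => ?_
        rw [vv]
        simp only
        rcases hei : e i with _ | a
        · simp
        · rw [Finset.sum_eq_single a]
          · rw [if_pos rfl]; rfl
          · intro a' _ ha'
            rw [if_neg]
            intro h4
            exact ha' (Option.some_injective _ h4).symm
          · intro h4
            exact absurd (Finset.mem_univ a) h4
      rw [Finset.sum_congr rfl fun l _ => e3 l, Finset.sum_comm])
    have h4 := h3 (p.2, (j, a₀))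
    simp only at h4
    rw [Finset.sum_eq_single p.1] at h4
    · rw [if_pos ha₀] at h4
      exact_mod_cast h4
    · intro i _ hi
      rw [if_neg]
      intro h5
      exact hi (he (h5.trans ha₀.symm))
    · intro h5
      exact absurd (Finset.mem_univ _) h5
  · simp only [ne_eq, not_not] at hp
    rw [vv, hp]
    simp
  · have e1 : ∑ p, (c p : ℂ) * uu β w e p = ∑ p, (c p : ℂ) * θ p := by
      refine Finset.sum_congr rfl fun p _ => ?_
      by_cases hp : e p.1 = none
      · rw [uu, hθ, hp]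
        simp [hp]
      · rw [hcW p hp]; simp
    rw [e1]
    have hne : ∑ p, (c p : ℂ) * θ p ≠ 0 := by
      intro h0
      refine hc (funext fun p => ?_)
      by_cases hp : e p.1 = none
      · have h5 : ∑ l, (c (p.1, l) : ℂ) * β l = 0 := by
          rw [← h0, Fintype.sum_prod_type, Finset.sum_eq_single p.1]
          · refine Finset.sum_congr rfl fun l _ => ?_
            rw [hθ]
            simp only
            rw [if_pos hp]
          · intro i _ hi
            refine Finset.sum_eq_zero fun l _ => ?_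
            rw [hθ]
            simp only
            rw [if_neg (fun h6 => hi (he (h6.trans hp.symm))), mul_zero]
          · intro h6
            exact absurd (Finset.mem_univ _) h6
        have h6 := Fintype.linearIndependent_iff.1 hβi (fun l => (c (p.1, l) : ℚ)) (by
          rw [← h5]
          refine Finset.sum_congr rfl fun l _ => ?_
          rw [Rat.smul_def]
          push_cast
          rfl) p.2
        show c p = 0
        exact_mod_cast h6
      · exact hcW p hp
    refine (min_le_right _ _).trans ((h₂ c H hH hcH hne).trans ?_)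
    exact mul_le_mul_of_nonneg_right (pow_le_pow_right₀ hH (le_max_right _ _)) (norm_nonneg _)

/-- **The law for damped multiple zeta values.** -/
theorem law_mzv {β : Fin q → ℂ} (hβ : ∀ l, β l ∈ ER) (hβi : LinearIndependent ℚ β)
    {w : Fin n → List ℕ} (hw : ∀ a, MZ.AdW (w a)) (hwi : Function.Injective w)
    {x : J → ℂ} (hx : ∀ j, IsAlgebraic ℚ (x j) ∧ x j ≠ 0) (hxi : Function.Injective x)
    (e : I → Option (Fin n)) (he : Function.Injective e) (E : ℕ) (hE : 2 ≤ E) :
    ∃ κ : ℕ, LawN E κ (uu β w e) (fun j => tt β w e (x j)) := by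
  obtain ⟨k₀, c₀, h⟩ := hyp_mzv hβ hβi hw hwi hx hxi e he
  obtain ⟨κ, hκ⟩ := law h E hE
  have e1 : (fun (j : J) (p : I × Fin q) => uu β w e p - vv β w e x j p) =
      fun j => tt β w e (x j) := by
    funext j p
    rw [uu, vv, tt, ← mul_sub]
    congr 1
    rcases e p.1 with _ | a
    · show (1 : ℂ) - 0 = 1
      rw [sub_zero]
    · exact (MZ.Tn_eq (hw a) (x j)).symm
  rw [e1] at hκ
  exact ⟨κ, hκ⟩

end Pool.Agent.H488.W
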