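import Pool.Agent.H488.W.Law0
import Pool.Agent.H488.W.Mzv
import Pool.Graph.R_pool_sql_team_seeded_3997aac3.Q189.MV.DSh

/-!
# Near relations between multiple zeta values of one weight, in the coordinates of the words
-/

set_option autoImplicit false

namespace Pool.Agent.H488.W.Dsh

open Pool.Agent.Q187.ZD.DS (W Z H0 RDS Linear index mzv InH0 InH1 word)
open Pool.Agent.N778
open Pool.Agent.H488 Pool.Agent.H488.W
open Module

/-- the words of weight `p` -/
abbrev Ad (p : ℕ) : Type := {w : List.Vector Bool p // InH0 w.toList}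

noncomputable instance instAd (p : ℕ) : Fintype (Ad p) := by
  classical
  exact Fintype.ofFinite _

/-- the word -/
def lw {p : ℕ} (a : Ad p) : List Bool := a.1.toList

lemma lw_inj {p : ℕ} : Function.Injective (lw (p := p)) := fun _ _ h => Subtype.ext (Subtype.ext h)

lemma lw_len {p : ℕ} (a : Ad p) : (lw a).length = p := a.1.2

lemma lw_H0 {p : ℕ} (a : Ad p) : InH0 (lw a) := a.2

lemma exists_lw {p : ℕ} {w : List Bool} (h : InH0 w) (hp : w.length = p) : ∃ a : Ad p, lw a = w :=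
  ⟨⟨⟨w, hp⟩, h⟩, rfl⟩

/-- the index of the word -/
def ix {p : ℕ} (a : Ad p) : List ℕ := index 0 (lw a)

lemma ix_inj {p : ℕ} : Function.Injective (ix (p := p)) := by
  intro a b h
  refine lw_inj ?_
  have h1 := Pool.Agent.Q189.MV.DSh.word_index' (Pool.Agent.Q189.MV.DSh.H0_H1 (lw_H0 a))
  have h2 := Pool.Agent.Q189.MV.DSh.word_index' (Pool.Agent.Q189.MV.DSh.H0_H1 (lw_H0 b))
  rw [← h1, ← h2]
  exact congrArg word h

lemma ix_adm {p : ℕ} (hp : 1 ≤ p) (a : Ad p) : MZ.AdW (ix a) := by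
  have h1 := Pool.Agent.Q189.MV.DSh.word_index' (Pool.Agent.Q189.MV.DSh.H0_H1 (lw_H0 a))
  have h2 := Pool.Agent.Q189.MV.DSh.index_adm (lw_H0 a)
  have h3 : index 0 (lw a) = ix a := rfl
  rw [h3] at h1 h2
  rcases hi : ix a with _ | ⟨k, s⟩
  · rw [hi] at h1
    have h4 := lw_len a
    rw [← h1] at h4
    simp [word] at h4
    omega
  · rw [hi] at h2
    exact ⟨h2.2 k s rfl, fun l hl => h2.1 l (List.mem_cons_of_mem _ hl)⟩

/-- combinations of words -/
noncomputable def Phi (p : ℕ) : (Ad p × Fin 1 → ℚ) →ₗ[ℚ] W :=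
  Fintype.linearCombination ℚ fun a => (Finsupp.single (lw a.1) 1 : W)

lemma Phi_apply {p : ℕ} (c : Ad p × Fin 1 → ℚ) :
    Phi p c = ∑ a, c a • (Finsupp.single (lw a.1) 1 : W) := by
  rw [Phi, Fintype.linearCombination_apply]

lemma Phi_coeff {p : ℕ} (c : Ad p × Fin 1 → ℚ) (a : Ad p × Fin 1) : Phi p c (lw a.1) = c a := by
  rw [Phi_apply, Finsupp.finsetSum_apply, Finset.sum_eq_single a]
  · rw [Finsupp.smul_apply, Finsupp.single_eq_same, smul_eq_mul, mul_one]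
  · intro b _ hb
    rw [Finsupp.smul_apply, Finsupp.single_eq_of_ne, smul_zero]
    intro h
    exact hb (Prod.ext (lw_inj h.symm) (Subsingleton.elim _ _))
  · intro h
    exact absurd (Finset.mem_univ _) h

lemma Phi_coeff' {p : ℕ} (c : Ad p × Fin 1 → ℚ) (w : List Bool) (h : ∀ a : Ad p, lw a ≠ w) :
    Phi p c w = 0 := by
  rw [Phi_apply, Finsupp.finsetSum_apply]
  refine Finset.sum_eq_zero fun b _ => ?_
  rw [Finsupp.smul_apply, Finsupp.single_eq_of_ne, smul_zero]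
  exact fun h' => h b.1 h'.symm

lemma Phi_mem {p : ℕ} (c : Ad p × Fin 1 → ℚ) : Phi p c ∈ H0 p := by
  rw [Phi_apply]
  refine Submodule.sum_mem _ fun a _ => Submodule.smul_mem _ _ (Submodule.subset_span ?_)
  exact ⟨lw a.1, lw_H0 _, lw_len _, rfl⟩

lemma Phi_inj (p : ℕ) : Function.Injective (Phi p) := by
  intro c d h
  funext a
  rw [← Phi_coeff c a, ← Phi_coeff d a, h]

lemma eq_Phi {p : ℕ} {f : W} (hf : f ∈ H0 p) : f = Phi p fun a => f (lw a.1) := by
  rw [H0] at hf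
  induction hf using Submodule.span_induction with
  | mem f hf =>
    obtain ⟨w, hw, hl, rfl⟩ := hf
    obtain ⟨a, rfl⟩ := exists_lw hw hl
    rw [Phi_apply, Finset.sum_eq_single (a, 0)]
    · rw [Finsupp.single_eq_same, one_smul]
    · intro b _ hb
      rw [Finsupp.single_eq_of_ne, zero_smul]
      intro h
      exact hb (Prod.ext (lw_inj h) (Subsingleton.elim _ _))
    · intro h
      exact absurd (Finset.mem_univ _) h
  | zero =>
    have : (fun a : Ad p × Fin 1 => (0 : W) (lw a.1)) = 0 := rfl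
    rw [this, map_zero]
  | add f g _ _ hf hg =>
    have : (fun a : Ad p × Fin 1 => (f + g) (lw a.1)) =
      (fun a : Ad p × Fin 1 => f (lw a.1)) + fun a : Ad p × Fin 1 => g (lw a.1) := rfl
    rw [this, map_add, ← hf, ← hg]
  | smul c f _ hf =>
    have : (fun a : Ad p × Fin 1 => (c • f) (lw a.1)) = c • fun a : Ad p × Fin 1 => f (lw a.1) := rfl
    rw [this, map_smul, ← hf]

lemma range_Phi (p : ℕ) : LinearMap.range (Phi p) = H0 p := by
  refine le_antisymm ?_ fun f hf => ?_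
  · rintro _ ⟨c, rfl⟩
    exact Phi_mem c
  · exact ⟨_, (eq_Phi hf).symm⟩

/-- the damped map -/
noncomputable def D (x : ℂ) : W →ₗ[ℚ] ℂ := Finsupp.linearCombination ℚ fun w => MZ.T (index 0 w) x

/-- the values of the words -/
noncomputable def tv (p : ℕ) (x : ℂ) (a : Ad p × Fin 1) : ℂ := MZ.T (ix a.1) x

lemma D_Phi {p : ℕ} (x : ℂ) (c : Ad p × Fin 1 → ℚ) : D x (Phi p c) = ∑ a, (c a : ℂ) * tv p x a := by
  rw [Phi_apply, map_sum]
  refine Finset.sum_congr rfl fun a _ => ?_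
  rw [map_smul, D, Finsupp.linearCombination_single, one_smul, Rat.smul_def]
  rfl

lemma trunc_eq (s : List ℕ) : ∀ k, ((Pool.Agent.Q187.ZD.DS.trunc s (k + 1) : ℝ) : ℂ) = MZ.H s k := by
  induction s with
  | nil => intro k; show ((1 : ℝ) : ℂ) = 1; simp
  | cons a s ih =>
    intro k
    show ((∑ j ∈ Finset.Ico 1 (k + 1), Pool.Agent.Q187.ZD.DS.trunc s j / (j : ℝ) ^ a : ℝ) : ℂ) = _
    rw [Finset.sum_Ico_eq_sum_range, Nat.add_sub_cancel, MZ.H]
    push_cast
    refine Finset.sum_congr rfl fun n _ => ?_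
    rw [add_comm 1 n, ih, add_comm (1 : ℂ)]

lemma mzv_zt (s : List ℕ) : ((mzv s : ℝ) : ℂ) = MZ.zt s := by
  rcases s with _ | ⟨a, s⟩
  · show ((1 : ℝ) : ℂ) = 1; simp
  · rw [mzv, MZ.zt, Complex.ofReal_tsum]
    refine tsum_congr fun k => ?_
    rw [← trunc_eq]
    push_cast
    rfl

/-- the point `0` -/
lemma D_zero {p : ℕ} (hp : 1 ≤ p) {f : W} (hf : f ∈ H0 p) : D 0 f = (Z f : ℂ) := by
  rw [eq_Phi hf, D_Phi]
  rw [Phi_apply, map_sum]
  push_cast
  refine Finset.sum_congr rfl fun a _ => ?_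
  rw [map_smul, Z, Finsupp.linearCombination_single, one_smul, Rat.smul_def, tv,
    MZ.T_zeron (ix_adm hp a.1)]
  push_cast
  rw [mzv_zt]
  rfl

/-- the space of the near relations of weight `p` -/
noncomputable def Near (p κ : ℕ) (H : ℝ) (x : ℂ) : Submodule ℚ W :=
  Submodule.span ℚ {f | f ∈ H0 p ∧ (∀ w, ∃ b : ℤ, f w = b ∧ |(b : ℝ)| ≤ H) ∧ ‖D x f‖ ≤ 1 / H ^ κ}

/-- the relations of weight `p` -/
noncomputable def Rel (p : ℕ) (x : ℂ) : Submodule ℚ W := H0 p ⊓ LinearMap.ker (D x)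

lemma Near_eq {p κ : ℕ} {H : ℝ} (hH : 0 ≤ H) (x : ℂ) :
    Near p κ H x = (NS (tv p x) κ H).map (Phi p) := by
  rw [Near, NS, Submodule.map_span]
  congr 1
  ext f
  constructor
  · rintro ⟨hf, hb, hs⟩
    choose b hb1 hb2 using hb
    refine ⟨rat fun a => b (lw a.1), ⟨fun a => b (lw a.1), ⟨fun a => hb2 _, ?_⟩, rfl⟩, ?_⟩
    · rw [eq_Phi hf, D_Phi] at hs
      rw [lf]
      refine le_trans (le_of_eq ?_) hs
      congr 1
      refine Finset.sum_congr rfl fun a _ => ?_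
      rw [hb1]
      push_cast
      rfl
    · refine Eq.trans ?_ (eq_Phi hf).symm
      congr 1
      funext a
      exact (hb1 _).symm
  · rintro ⟨_, ⟨c, ⟨hc, hs⟩, rfl⟩, rfl⟩
    refine ⟨Phi_mem _, fun w => ?_, ?_⟩
    · by_cases h : ∃ a : Ad p, lw a = w
      · obtain ⟨a, rfl⟩ := h
        exact ⟨c (a, 0), Phi_coeff (rat c) (a, 0), hc _⟩
      · push Not at h
        refine ⟨0, ?_, by simpa using hH⟩
        rw [Phi_coeff' _ _ h]
        norm_num
    · rw [D_Phi]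
      refine le_trans (le_of_eq ?_) hs
      rw [lf]
      congr 1

lemma Rel_eq (p : ℕ) (x : ℂ) : Rel p x = (RS (tv p x)).map (Phi p) := by
  ext f
  constructor
  · rintro ⟨hf, hk⟩
    refine ⟨fun a => f (lw a.1), ?_, (eq_Phi hf).symm⟩
    show _ ∈ RS (tv p x)
    rw [mem_RS, ← D_Phi, ← eq_Phi hf]
    exact hk
  · rintro ⟨c, hc, rfl⟩
    refine ⟨Phi_mem c, ?_⟩
    show D x (Phi p c) = 0
    rw [D_Phi]
    exact mem_RS.1 hc

lemma finrank_map_Phi {p : ℕ} (N : Submodule ℚ (Ad p × Fin 1 → ℚ)) :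
    finrank ℚ (N.map (Phi p)) = finrank ℚ N :=
  ((Submodule.equivMapOfInjective (Phi p) (Phi_inj p) N).finrank_eq).symm

lemma finrank_H0 (p : ℕ) : finrank ℚ (H0 p) = Fintype.card (Ad p × Fin 1) := by
  rw [← range_Phi, LinearMap.finrank_range_of_inj (Phi_inj p), Module.finrank_fintype_fun_eq_card]

open Pool.Agent.N902.EW

/-- the numbers `β_l` and `β_l S_w(x)` are linearly independent -/
lemma li_b1S {J : Type} {n q : ℕ} {β : Fin q → ℂ} (hβ : ∀ l, β l ∈ ER)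
    (hβi : LinearIndependent ℚ β) {w : Fin n → List ℕ} (hw : ∀ a, MZ.AdW (w a))
    (hwi : Function.Injective w) {x : J → ℂ} (hx : ∀ j, IsAlgebraic ℚ (x j) ∧ x j ≠ 0)
    (hxi : Function.Injective x) :
    LinearIndependent ℚ (fun p : Fin q × Option (J × Fin n) =>
      β p.1 * p.2.elim 1 fun z => MZ.S (w z.2) (x z.1)) := by
  obtain ⟨X, hX⟩ : ∃ X : Set ℂ, X = {x | IsAlgebraic ℚ x ∧ x ≠ 0} := ⟨_, rfl⟩
  have h1 := MZ.li_Sn X fun x hx => by rw [hX] at hx; exact hx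
  obtain ⟨g, hg⟩ : ∃ g : J × Fin n → {p : List ℕ × ℂ // MZ.Wo p.1 ∧ p.2 ∈ X}, g = fun p =>
      ⟨(w p.2, x p.1), (hw _).wo, by rw [hX]; exact hx _⟩ := ⟨_, rfl⟩
  have hgi : Function.Injective g := by
    rintro ⟨j, a⟩ ⟨j', a'⟩ h
    rw [hg] at h
    have h2 := congrArg Subtype.val h
    have e1 : w a = w a' := congrArg Prod.fst h2
    have e2 : x j = x j' := congrArg Prod.snd h2
    rw [hwi e1, hxi e2]
  have h2 := h1.comp (Option.map g) (Option.map_injective hgi)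
  obtain ⟨β', hβ'⟩ : ∃ β' : Fin q → MZ.L0, β' = fun l => ⟨β l, ER_L0 (hβ l)⟩ := ⟨_, rfl⟩
  have h3 : LinearIndependent ℚ β' := by
    refine LinearIndependent.of_comp (MZ.L0.val.toLinearMap) ?_
    have e : (MZ.L0.val.toLinearMap : MZ.L0 → ℂ) ∘ β' = β := by
      funext l
      rw [hβ']
      rfl
    rw [e]
    exact hβi
  have h4 := linearIndependent_smul h3 h2
  have e : (fun p : Fin q × Option (J × Fin n) => β' p.1 • ((fun o : Option {p : List ℕ × ℂ // MZ.Wo p.1 ∧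
      p.2 ∈ X} => (o.elim 1 (fun p => MZ.S p.1.1 p.1.2) : ℂ)) ∘ Option.map g) p.2) =
      fun p : Fin q × Option (J × Fin n) => β p.1 * p.2.elim 1 fun z => MZ.S (w z.2) (x z.1) := by
    funext p
    rw [hβ', hg]
    rcases p.2 with _ | z
    · rfl
    · rfl
  rw [e] at h4
  exact h4

/-- a measure of linear independence -/
lemma measure {σ : Type} [Fintype σ] {θ : σ → ℂ} (hr : ∀ i, θ i ∈ (evA io).range)
    (hli : LinearIndependent ℚ θ) : ∃ (κ : ℕ) (c : ℝ), 0 < c ∧ ∀ H : ℝ, 1 ≤ H → ∀ μ : σ → ℤ,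
      μ ≠ 0 → (∀ i, |(μ i : ℝ)| ≤ H) → c / H ^ κ ≤ ‖∑ i, (μ i : ℂ) * θ i‖ := by
  obtain ⟨κ, c, hc, h⟩ := semi_lin (semi_range θ hr)
  refine ⟨κ, c, hc, fun H hH μ hμ hb => ?_⟩
  rw [div_le_iff₀ (by positivity), mul_comm]
  refine h μ H hH hb fun h0 => hμ (funext fun i => ?_)
  have h1 := Fintype.linearIndependent_iff.1 hli (fun i => (μ i : ℚ)) (by
    rw [← h0]
    refine Finset.sum_congr rfl fun i _ => ?_
    rw [Rat.smul_def]
    push_cast
    rfl) i
  exact_mod_cast h1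

lemma rat_range (r : ℚ) : ((r : ℚ) : ℂ) ∈ (evA io).range :=
  ER_range (Subalgebra.algebraMap_mem ER r)

end Pool.Agent.H488.W.Dsh
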