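import Pool.Agent.H488.W.Dsh
import Pool.Graph.R_pool_sql_team_seeded_3997aac3.Q189.MV.DShD

/-!
# The law of the near relations between multiple zeta values of one weight, after damping
-/

set_option autoImplicit false

namespace Pool.Agent.H488.W.Dsh

open Pool.Agent.Q187.ZD.DS (W Z H0 RDS Linear index mzv InH0 InH1 word)
open Pool.Agent.N778
open Pool.Agent.H488 Pool.Agent.H488.W
open Module

theorem hyp_ds {p : ℕ} (hp : 1 ≤ p) {J : Type} [Fintype J] {x : J → ℂ}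
    (hx : ∀ j, IsAlgebraic ℚ (x j) ∧ x j ≠ 0) (hxi : Function.Injective x) :
    ∃ (P : Ad p × Fin 1 → Prop) (u : Ad p × Fin 1 → ℂ) (v : J → Ad p × Fin 1 → ℂ) (k₀ : ℕ) (c₀ : ℝ),
      Hyp P u v k₀ c₀ ∧ TT u v = fun o : Option J => tv p (o.elim 0 x) := by
  classical
  obtain ⟨n, hn⟩ : ∃ n, n = Fintype.card (Ad p) := ⟨_, rfl⟩
  obtain ⟨eq⟩ : Nonempty (Ad p ≃ Fin n) := ⟨(Fintype.equivFin (Ad p)).trans (finCongr hn.symm)⟩
  obtain ⟨w, hw⟩ : ∃ w : Fin n → List ℕ, w = fun i => ix (eq.symm i) := ⟨_, rfl⟩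
  obtain ⟨e, he⟩ : ∃ e : Ad p → Option (Fin n), e = fun a => some (eq a) := ⟨_, rfl⟩
  obtain ⟨β, hβ⟩ : ∃ β : Fin 1 → ℂ, β = fun _ => 1 := ⟨_, rfl⟩
  have hβ1 : ∀ l, β l ∈ ER := fun l => by
    rw [hβ]
    exact Subalgebra.one_mem _
  have hβi : LinearIndependent ℚ β := by
    rw [Fintype.linearIndependent_iff]
    intro g hg i
    rw [hβ, Fin.sum_univ_one, Rat.smul_def, mul_one] at hg
    rw [Subsingleton.elim i 0]
    exact_mod_cast hg
  have hwa : ∀ a, MZ.AdW (w a) := fun a => by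
    rw [hw]
    exact ix_adm hp _
  have hwi : Function.Injective w := by
    rw [hw]
    exact ix_inj.comp eq.symm.injective
  have hei : Function.Injective e := by
    rw [he]
    exact (Option.some_injective _).comp eq.injective
  obtain ⟨k₀, c₀, h⟩ := hyp_mzv hβ1 hβi hwa hwi hx hxi e hei
  refine ⟨_, _, _, k₀, c₀, h, ?_⟩
  funext o a
  have hwe : w (eq a.1) = ix a.1 := by
    rw [hw]
    simp
  have hu : uu β w e a = MZ.zt (ix a.1) := by
    rw [uu, he, hβ]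
    show (1 : ℂ) * MZ.zt (w (eq a.1)) = _
    rw [hwe, one_mul]
  rcases o with _ | j
  · show uu β w e a = tv p 0 a
    rw [hu, tv, MZ.T_zeron (ix_adm hp a.1)]
  · show uu β w e a - vv β w e x j a = tv p (x j) a
    have hv : vv β w e x j a = MZ.S (ix a.1) (x j) := by
      rw [vv, he, hβ]
      show (1 : ℂ) * MZ.S (w (eq a.1)) (x j) = _
      rw [hwe, one_mul]
    rw [hu, hv, tv, MZ.Tn_eq (ix_adm hp a.1)]

theorem law_ds {p : ℕ} (hp : 1 ≤ p) {J : Type} [Fintype J] {x : J → ℂ}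
    (hx : ∀ j, IsAlgebraic ℚ (x j) ∧ x j ≠ 0) (hxi : Function.Injective x) (E : ℕ) (hE : 2 ≤ E) :
    ∃ κ : ℕ, LawG E κ fun o : Option J => tv p (o.elim 0 x) := by
  obtain ⟨P, u, v, k₀, c₀, h, he⟩ := hyp_ds hp hx hxi
  obtain ⟨k₁, h₁, hh₁, hd⟩ := direct0 h
  have hd' : ∀ κ : ℕ, k₁ ≤ κ → ∀ H : ℝ, h₁ ≤ H →
      (∀ c : Option J → (Ad p × Fin 1) → ℚ,
        (∀ o, c o ∈ NS ((fun o : Option J => tv p (o.elim 0 x)) o) κ H) → ∑ o, c o = 0 → ∀ o, c o = 0) ∧
      tot0 (fun o : Option J => tv p (o.elim 0 x)) κ H ≤ Fintype.card (Ad p × Fin 1) := by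
    intro κ hκ H hH
    have h1 := hd κ hκ H hH
    rw [he] at h1
    exact h1
  exact lawG hh₁ hd' E hE

/-- the number of the near relations at all points -/
noncomputable def all {m : ℕ} (p κ : ℕ) (H : ℝ) (x : Fin m → ℂ) : ℕ :=
  finrank ℚ (Near p κ H 0) + ∑ j, finrank ℚ (Near p κ H (x j))

lemma Near_mono_map {p κ : ℕ} {H Y : ℝ} (hH : 0 ≤ H) (hY : 0 ≤ Y) {x : ℂ}
    (h : NS (tv p x) κ Y ≤ NS (tv p x) κ H) : Near p κ Y x ≤ Near p κ H x := by
  rw [Near_eq hH, Near_eq hY]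
  exact Submodule.map_mono h

lemma finrank_Near {p κ : ℕ} {H : ℝ} (hH : 0 ≤ H) (x : ℂ) :
    finrank ℚ (Near p κ H x) = finrank ℚ (NS (tv p x) κ H) := by
  rw [Near_eq hH, finrank_map_Phi]

lemma finrank_Rel (p : ℕ) (x : ℂ) : finrank ℚ (Rel p x) = finrank ℚ (RS (tv p x)) := by
  rw [Rel_eq, finrank_map_Phi]

lemma all_eq {m p κ : ℕ} {H : ℝ} (hH : 0 ≤ H) (x : Fin m → ℂ) :
    all p κ H x = tot0 (fun o : Option (Fin m) => tv p (o.elim 0 x)) κ H := by
  rw [all, tot0, Fintype.sum_option, finrank_Near hH]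
  congr 1
  exact Finset.sum_congr rfl fun j _ => finrank_Near hH _

/-- the kernel of `Z` -/
lemma Rel_zero {p : ℕ} (hp : 1 ≤ p) : Rel p 0 = H0 p ⊓ LinearMap.ker Z := by
  ext f
  constructor
  · rintro ⟨hf, hk⟩
    refine ⟨hf, ?_⟩
    have h1 : D 0 f = 0 := hk
    rw [D_zero hp hf] at h1
    exact LinearMap.mem_ker.2 (by exact_mod_cast h1)
  · rintro ⟨hf, hk⟩
    refine ⟨hf, ?_⟩
    show D 0 f = 0
    rw [D_zero hp hf, LinearMap.mem_ker.1 hk]
    simp

lemma finrank_ker (p : ℕ) : finrank ℚ (H0 p ⊓ LinearMap.ker Z : Submodule ℚ W) +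
    finrank ℚ ((H0 p).map Z) = finrank ℚ (H0 p) := by
  have hfd := Pool.Agent.Q187.ZD.DS.finite_H0 p
  have h1 := LinearMap.finrank_range_add_finrank_ker (Z.domRestrict (H0 p))
  have h2 : LinearMap.range (Z.domRestrict (H0 p)) = (H0 p).map Z := by
    rw [LinearMap.range_domRestrict]
  have h3 : finrank ℚ (LinearMap.ker (Z.domRestrict (H0 p))) =
      finrank ℚ (H0 p ⊓ LinearMap.ker Z : Submodule ℚ W) := by
    have h4 : (LinearMap.ker (Z.domRestrict (H0 p))).map (H0 p).subtype = H0 p ⊓ LinearMap.ker Z := by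
      ext f
      constructor
      · rintro ⟨⟨g, hg⟩, hk, rfl⟩
        exact ⟨hg, hk⟩
      · rintro ⟨hf, hk⟩
        exact ⟨⟨f, hf⟩, hk, rfl⟩
    rw [← h4]
    exact ((Submodule.equivMapOfInjective _ (H0 p).subtype_injective _).finrank_eq)
  rw [h2, h3] at h1
  omega

open Pool.Agent.Q189.MV.DSh (formal missing missing_zero missing_add map_Z)

/-- **The law of the near relations of one weight** -/
def Law {m : ℕ} (E p κ : ℕ) (x : Fin m → ℂ) : Prop :=
  (∃ H₀ : ℝ, ∀ H : ℝ, H₀ ≤ H →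
    (∀ f ∈ Near p κ H 0, ∀ g : Fin m → W, (∀ j, g j ∈ Near p κ H (x j)) → f + ∑ j, g j = 0 →
      f = 0 ∧ ∀ j, g j = 0) ∧
    H0 p ⊓ LinearMap.ker Z ≤ Near p κ H 0 ∧
    all p κ H x ≤ finrank ℚ (H0 p) ∧
    missing p + ∑ j, finrank ℚ (Near p κ H (x j)) ≤ formal p ∧
    (formal p ≤ ∑ j, finrank ℚ (Near p κ H (x j)) → Linear p ∧ Near p κ H 0 = H0 p ⊓ RDS p) ∧
    (all p κ H x = finrank ℚ (H0 p) →
      (∀ Y : ℝ, H ≤ Y → Near p κ Y 0 = Rel p 0 ∧ ∀ j, Near p κ Y (x j) = Rel p (x j)) ∨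
      ∃ M : ℝ, H ≤ M ∧
        (∀ Y : ℝ, H ≤ Y → Y ≤ M → Near p κ Y 0 ≤ Near p κ H 0 ∧
          ∀ j, Near p κ Y (x j) ≤ Near p κ H (x j)) ∧
        ∀ Y : ℝ, M < Y → Y ≤ M ^ E → all p κ Y x < finrank ℚ (H0 p))) ∧
  ((finrank ℚ (Rel p 0) + ∑ j, finrank ℚ (Rel p (x j)) = finrank ℚ (H0 p)) ↔
    ∃ H₁ : ℝ, ∀ H : ℝ, H₁ ≤ H → all p κ H x = finrank ℚ (H0 p))

theorem law_near {p : ℕ} (hp : 1 ≤ p) {m : ℕ} {x : Fin m → ℂ}
    (hx : ∀ j, IsAlgebraic ℚ (x j) ∧ x j ≠ 0) (hxi : Function.Injective x) (E : ℕ) (hE : 2 ≤ E) :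
    ∃ κ : ℕ, Law E p κ x := by
  classical
  obtain ⟨κ, ⟨H₀, h⟩, hzo⟩ := law_ds hp hx hxi E hE
  have hfd := Pool.Agent.Q187.ZD.DS.finite_H0 p
  obtain ⟨r₀, hr₀⟩ := RS_le (tv p 0) κ
  have hNH : ∀ (H : ℝ) (y : ℂ), Near p κ H y ≤ H0 p := by
    intro H y
    rw [Near, Submodule.span_le]
    rintro f ⟨hf, -⟩
    exact hf
  have hker : ∀ H : ℝ, r₀ ≤ H → 0 ≤ H → H0 p ⊓ LinearMap.ker Z ≤ Near p κ H 0 := by
    intro H hH hH0
    rw [← Rel_zero hp, Rel_eq, Near_eq hH0]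
    exact Submodule.map_mono (hr₀ H hH)
  have hcard : finrank ℚ (H0 p) = Fintype.card (Ad p × Fin 1) := finrank_H0 p
  have hall : ∀ H : ℝ, H₀ ≤ H → 0 ≤ H → all p κ H x ≤ finrank ℚ (H0 p) := by
    intro H hH hH0
    rw [all_eq hH0, hcard]
    exact (h H hH).2.1
  have hcnt : ∀ H : ℝ, H₀ ≤ H → r₀ ≤ H → 0 ≤ H →
      missing p + ∑ j, finrank ℚ (Near p κ H (x j)) ≤ formal p := by
    intro H hH hr hH0
    have h1 := hall H hH hH0
    have h2 := finrank_ker p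
    rw [map_Z] at h2
    have h3 := missing_add p
    have : FiniteDimensional ℚ (Near p κ H 0) := Submodule.finiteDimensional_of_le (hNH H 0)
    have h4 := Submodule.finrank_mono (hker H hr hH0)
    rw [all] at h1
    omega
  refine ⟨κ, ⟨max (max H₀ r₀) 0, fun H hH => ?_⟩, ?_⟩
  · have hH1 : H₀ ≤ H := ((le_max_left _ _).trans (le_max_left _ _)).trans hH
    have hH2 : r₀ ≤ H := ((le_max_right _ _).trans (le_max_left _ _)).trans hH
    have hH3 : 0 ≤ H := (le_max_right _ _).trans hH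
    refine ⟨?_, hker H hH2 hH3, hall H hH1 hH3, hcnt H hH1 hH2 hH3, ?_, ?_⟩
    · intro f hf g hg hsum
      rw [Near_eq hH3] at hf
      obtain ⟨c, hc, rfl⟩ := hf
      have hg' : ∀ j, ∃ d, d ∈ NS (tv p (x j)) κ H ∧ Phi p d = g j := fun j => by
        have h1 := hg j
        rw [Near_eq hH3] at h1
        exact h1
      choose d hd1 hd2 using hg'
      have h1 := (h H hH1).1 (fun o => o.elim c d) (by
        rintro (_ | j)
        · exact hc
        · exact hd1 j) (by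
        refine Phi_inj p ?_
        rw [Fintype.sum_option, map_zero, map_add, map_sum]
        show Phi p c + ∑ j, Phi p (d j) = 0
        rw [Finset.sum_congr rfl fun j _ => hd2 j]
        exact hsum)
      have h2 : c = 0 := h1 none
      have h3 : ∀ j, d j = 0 := fun j => h1 (some j)
      refine ⟨by rw [h2, map_zero], fun j => by rw [← hd2, h3, map_zero]⟩
    · intro hle
      have h1 := hcnt H hH1 hH2 hH3
      have hm : missing p = 0 := by omega
      have hlin : Linear p := (missing_zero p).1 hm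
      refine ⟨hlin, ?_⟩
      have h2 := finrank_ker p
      rw [map_Z] at h2
      have h3 := missing_add p
      have h4 := hall H hH1 hH3
      rw [all] at h4
      have : FiniteDimensional ℚ (Near p κ H 0) := Submodule.finiteDimensional_of_le (hNH H 0)
      have h5 := Submodule.finrank_mono (hker H hH2 hH3)
      have h6 : H0 p ⊓ LinearMap.ker Z = Near p κ H 0 :=
        Submodule.eq_of_le_of_finrank_eq (hker H hH2 hH3) (by omega)
      rw [← h6]
      refine le_antisymm ?_ ?_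
      · rintro f ⟨hf, hk⟩
        exact ⟨hf, hlin f hf (LinearMap.mem_ker.1 hk)⟩
      · rintro f ⟨hf, hk⟩
        exact ⟨hf, LinearMap.mem_ker.2 (Pool.Agent.Q189.MV.DSh.Z_RDS hk)⟩
    · intro htot
      rw [all_eq hH3, hcard] at htot
      rcases (h H hH1).2.2 htot with h1 | ⟨M, hM, h2, h3⟩
      · left
        intro Y hY
        refine ⟨?_, fun j => ?_⟩
        · rw [Near_eq (hH3.trans hY), Rel_eq]
          exact congrArg _ (h1 Y hY none)
        · rw [Near_eq (hH3.trans hY), Rel_eq]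
          exact congrArg _ (h1 Y hY (some j))
      · right
        refine ⟨M, hM, fun Y hY1 hY2 => ⟨?_, fun j => ?_⟩, fun Y hY1 hY2 => ?_⟩
        · exact Near_mono_map hH3 (hH3.trans hY1) (h2 Y hY1 hY2 none)
        · exact Near_mono_map hH3 (hH3.trans hY1) (h2 Y hY1 hY2 (some j))
        · rw [all_eq ((hH3.trans hM).trans hY1.le), hcard]
          exact h3 Y hY1 hY2
  · have e1 : finrank ℚ (Rel p 0) + ∑ j, finrank ℚ (Rel p (x j)) =
        ∑ o : Option (Fin m), finrank ℚ (RS (tv p (o.elim 0 x))) := by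
      rw [Fintype.sum_option, finrank_Rel]
      congr 1
      exact Finset.sum_congr rfl fun j _ => finrank_Rel p _
    rw [e1, hcard, hzo]
    constructor
    · rintro ⟨H₁, h1⟩
      refine ⟨max H₁ 0, fun H hH => ?_⟩
      rw [all_eq ((le_max_right _ _).trans hH)]
      exact h1 H ((le_max_left _ _).trans hH)
    · rintro ⟨H₁, h1⟩
      refine ⟨max H₁ 0, fun H hH => ?_⟩
      rw [← all_eq ((le_max_right _ _).trans hH)]
      exact h1 H ((le_max_left _ _).trans hH)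

end Pool.Agent.H488.W.Dsh
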