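import Pool.Agent.H488.W.DshA

/-!
# Measures of linear independence: double shuffle elements after damping, and non-real points
-/

set_option autoImplicit false

namespace Pool.Agent.H488.W.Dsh

open Pool.Agent.Q187.ZD.DS (W Z H0 RDS Linear index mzv InH0 InH1 word)
open Pool.Agent.N902.EW
open Pool.Agent.N778
open Pool.Agent.H488 Pool.Agent.H488.W
open Module

lemma index_inj {u v : List Bool} (hu : InH0 u) (hv : InH0 v) (h : index 0 u = index 0 v) : u = v := by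
  have h1 := Pool.Agent.Q189.MV.DSh.word_index' (Pool.Agent.Q189.MV.DSh.H0_H1 hu)
  have h2 := Pool.Agent.Q189.MV.DSh.word_index' (Pool.Agent.Q189.MV.DSh.H0_H1 hv)
  rw [← h1, ← h2, h]

lemma index_adw {w : List Bool} (hw : InH0 w) (h0 : w ≠ []) : MZ.AdW (index 0 w) := by
  have h1 := Pool.Agent.Q189.MV.DSh.word_index' (Pool.Agent.Q189.MV.DSh.H0_H1 hw)
  have h2 := Pool.Agent.Q189.MV.DSh.index_adm hw
  rcases hi : index 0 w with _ | ⟨k, s⟩
  · rw [hi] at h1
    exact absurd h1.symm h0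
  · rw [hi] at h2
    exact ⟨h2.2 k s rfl, fun l hl => h2.1 l (List.mem_cons_of_mem _ hl)⟩

/-- the numbers `β_l` and `β_l S_w(x)` -/
lemma li_ad {p : ℕ} (hp : 1 ≤ p) {J : Type} {q : ℕ} {β : Fin q → ℂ} (hβ : ∀ l, β l ∈ ER)
    (hβi : LinearIndependent ℚ β) {x : J → ℂ} (hx : ∀ j, IsAlgebraic ℚ (x j) ∧ x j ≠ 0)
    (hxi : Function.Injective x) :
    LinearIndependent ℚ (fun o : Fin q × Option (J × Ad p) =>
      β o.1 * o.2.elim 1 fun z => MZ.S (ix z.2) (x z.1)) := by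
  classical
  obtain ⟨n, hn⟩ : ∃ n, n = Fintype.card (Ad p) := ⟨_, rfl⟩
  obtain ⟨eq⟩ : Nonempty (Ad p ≃ Fin n) := ⟨(Fintype.equivFin (Ad p)).trans (finCongr hn.symm)⟩
  have h1 := li_b1S hβ hβi (w := fun i => ix (eq.symm i)) (fun a => ix_adm hp _)
    (ix_inj.comp eq.symm.injective) hx hxi
  have h2 := h1.comp (fun o : Fin q × Option (J × Ad p) =>
      (o.1, Option.map (Prod.map id eq) o.2)) (by
    rintro ⟨l, o⟩ ⟨l', o'⟩ h
    have e1 : l = l' := congrArg Prod.fst h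
    have e2 : Option.map (Prod.map id eq) o = Option.map (Prod.map id eq) o' := congrArg Prod.snd h
    rw [e1, Option.map_injective (Function.Injective.prodMap Function.injective_id eq.injective) e2])
  have e : (fun p : Fin q × Option (J × Fin n) =>
      β p.1 * p.2.elim 1 fun z => MZ.S (ix (eq.symm z.2)) (x z.1)) ∘
      (fun o : Fin q × Option (J × Ad p) => (o.1, Option.map (Prod.map id eq) o.2)) =
      fun o => β o.1 * o.2.elim 1 fun z => MZ.S (ix z.2) (x z.1) := by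
    funext o
    rcases o with ⟨l, _ | ⟨j, a⟩⟩
    · rfl
    · show β l * MZ.S (ix (eq.symm (eq a))) (x j) = β l * MZ.S (ix a) (x j)
      rw [eq.symm_apply_apply]
  rw [e] at h2
  exact h2

lemma D_sum {p : ℕ} {f : W} (hf : f ∈ H0 p) (x : ℂ) :
    D x f = ∑ a : Ad p, (f (lw a) : ℂ) * MZ.T (ix a) x := by
  conv_lhs => rw [eq_Phi hf, D_Phi]
  rw [Fintype.sum_prod_type]
  refine Finset.sum_congr rfl fun a _ => ?_
  rw [Fin.sum_univ_one, tv]

lemma D_ker {p : ℕ} (hp : 1 ≤ p) {f : W} (hf : f ∈ H0 p) (hZ : Z f = 0) (x : ℂ) :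
    D x f = -∑ a : Ad p, (f (lw a) : ℂ) * MZ.S (ix a) x := by
  have h0 := D_zero hp hf
  rw [hZ, D_sum hf, Complex.ofReal_zero] at h0
  rw [D_sum hf]
  have h1 : ∑ a : Ad p, (f (lw a) : ℂ) * MZ.T (ix a) x =
      ∑ a : Ad p, (f (lw a) : ℂ) * MZ.T (ix a) 0 - ∑ a : Ad p, (f (lw a) : ℂ) * MZ.S (ix a) x := by
    rw [← Finset.sum_sub_distrib]
    refine Finset.sum_congr rfl fun a _ => ?_
    rw [MZ.Tn_eq (ix_adm hp a), MZ.T_zeron (ix_adm hp a)]
    ring
  rw [h1, h0, zero_sub]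

/-- the numbers `β_l` and `β_l D_x(f)` -/
noncomputable def dv {q m n : ℕ} (β : Fin q → ℂ) (x : Fin m → ℂ) (f : Fin n → W)
    (o : Fin q × Option (Fin m × Fin n)) : ℂ := β o.1 * o.2.elim 1 fun z => D (x z.1) (f z.2)

lemma li_dv {p : ℕ} (hp : 1 ≤ p) {q m n : ℕ} {β : Fin q → ℂ} (hβ : ∀ l, β l ∈ ER)
    (hβi : LinearIndependent ℚ β) {x : Fin m → ℂ} (hx : ∀ j, IsAlgebraic ℚ (x j) ∧ x j ≠ 0)
    (hxi : Function.Injective x) {f : Fin n → W} (hf : ∀ i, f i ∈ H0 p)
    (hfi : LinearIndependent ℚ f) (hfZ : ∀ i, Z (f i) = 0) : LinearIndependent ℚ (dv β x f) := by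
  classical
  rw [Fintype.linearIndependent_iff]
  intro g hg
  have h1 := Fintype.linearIndependent_iff.1 (li_ad hp hβ hβi hx hxi)
    (fun o => o.2.elim (g (o.1, none)) fun z => -∑ i, g (o.1, some (z.1, i)) * f i (lw z.2)) (by
      rw [← hg]
      rw [Fintype.sum_prod_type, Fintype.sum_prod_type]
      refine Finset.sum_congr rfl fun l _ => ?_
      rw [Fintype.sum_option, Fintype.sum_option]
      congr 1
      rw [Fintype.sum_prod_type, Fintype.sum_prod_type]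
      refine Finset.sum_congr rfl fun j _ => ?_
      show ∑ a : Ad p, (-∑ i, g (l, some (j, i)) * f i (lw a)) • (β l * MZ.S (ix a) (x j)) =
        ∑ i : Fin n, g (l, some (j, i)) • (β l * D (x j) (f i))
      have e1 : ∀ i, g (l, some (j, i)) • (β l * D (x j) (f i)) =
          ∑ a : Ad p, -((g (l, some (j, i)) : ℂ) * (f i (lw a) : ℂ) * (β l * MZ.S (ix a) (x j))) := by
        intro i
        rw [D_ker hp (hf i) (hfZ i), Rat.smul_def, mul_neg, mul_neg, Finset.mul_sum, Finset.mul_sum,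
          ← Finset.sum_neg_distrib]
        exact Finset.sum_congr rfl fun a _ => by ring
      have e2 : ∀ a : Ad p, (-∑ i, g (l, some (j, i)) * f i (lw a)) • (β l * MZ.S (ix a) (x j)) =
          ∑ i : Fin n, -((g (l, some (j, i)) : ℂ) * (f i (lw a) : ℂ) * (β l * MZ.S (ix a) (x j))) := by
        intro a
        rw [Rat.smul_def]
        push_cast
        rw [← Finset.sum_neg_distrib, Finset.sum_mul]
        exact Finset.sum_congr rfl fun i _ => by ring
      rw [Finset.sum_congr rfl fun a _ => e2 a, Finset.sum_congr rfl fun i _ => e1 i,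
        Finset.sum_comm])
  rintro ⟨l, _ | ⟨j, i⟩⟩
  · exact h1 (l, none)
  · have h2 : ∑ i, g (l, some (j, i)) • f i = 0 := by
      obtain ⟨F, hF⟩ : ∃ F : W, F = ∑ i, g (l, some (j, i)) • f i := ⟨_, rfl⟩
      rw [← hF]
      have hFm : F ∈ H0 p := by
        rw [hF]
        exact Submodule.sum_mem _ fun i _ => Submodule.smul_mem _ _ (hf i)
      have h3 : (fun a : Ad p × Fin 1 => F (lw a.1)) = 0 := by
        funext a
        have h4 : -∑ i, g (l, some (j, i)) * f i (lw a.1) = 0 := h1 (l, some (j, a.1))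
        rw [neg_eq_zero] at h4
        rw [hF, Finsupp.finsetSum_apply]
        exact h4
      rw [eq_Phi hFm, h3, map_zero]
    exact Fintype.linearIndependent_iff.1 hfi _ h2 i

/-- **Double shuffle elements after damping: a measure of linear independence** -/
theorem measure_ker {p : ℕ} (hp : 1 ≤ p) {q m n : ℕ} {β : Fin q → ℂ} (hβ : ∀ l, β l ∈ ER)
    (hβi : LinearIndependent ℚ β) {x : Fin m → ℂ} (hx : ∀ j, IsAlgebraic ℚ (x j) ∧ x j ≠ 0)
    (hxi : Function.Injective x) {f : Fin n → W} (hf : ∀ i, f i ∈ H0 p)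
    (hfi : LinearIndependent ℚ f) (hfZ : ∀ i, Z (f i) = 0) :
    ∃ (κ : ℕ) (c : ℝ), 0 < c ∧ ∀ H : ℝ, 1 ≤ H → ∀ μ : Fin q × Option (Fin m × Fin n) → ℤ,
      μ ≠ 0 → (∀ o, |(μ o : ℝ)| ≤ H) → c / H ^ κ ≤ ‖∑ o, (μ o : ℂ) * dv β x f o‖ := by
  refine measure ?_ (li_dv hp hβ hβi hx hxi hf hfi hfZ)
  rintro ⟨l, _ | ⟨j, i⟩⟩
  · show β l * 1 ∈ _
    rw [mul_one]
    exact ER_range (hβ l)
  · show β l * D (x j) (f i) ∈ _
    rw [D_ker hp (hf i) (hfZ i)]
    refine Subring.mul_mem _ (ER_range (hβ l)) (Subring.neg_mem _ (Subring.sum_mem _ fun a _ => ?_))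
    exact Subring.mul_mem _ (rat_range _) (S_range (ix_adm hp a).wo.2 (hx j).1 (hx j).2)

/-- **Non-real points: a measure of linear independence** -/
theorem measure_nonreal {q m n : ℕ} {β : Fin q → ℂ} (hβ : ∀ l, β l ∈ ER)
    (hβi : LinearIndependent ℚ β) (hβr : ∀ l, (starRingEnd ℂ) (β l) = β l) {x : Fin m → ℂ}
    (hx : ∀ j, IsAlgebraic ℚ (x j) ∧ x j ≠ 0) (hxi : Function.Injective x)
    (hxc : ∀ i j, x i ≠ (starRingEnd ℂ) (x j)) {w : Fin n → List ℕ} (hw : ∀ a, MZ.AdW (w a))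
    (hwi : Function.Injective w) :
    ∃ (κ : ℕ) (c : ℝ), 0 < c ∧ ∀ H : ℝ, 1 ≤ H → ∀ μ : Fin q × Option (Fin m × Fin n) → ℤ,
      μ ≠ 0 → (∀ o, |(μ o : ℝ)| ≤ H) →
        c / H ^ κ ≤ ‖∑ o, (μ o : ℂ) * (β o.1 * o.2.elim 1 fun z => MZ.T (w z.2) (x z.1))‖ := by
  classical
  obtain ⟨y, hy⟩ : ∃ y : Fin m ⊕ Fin m → ℂ, y = Sum.elim x fun j => (starRingEnd ℂ) (x j) := ⟨_, rfl⟩
  have hya : ∀ o, IsAlgebraic ℚ (y o) ∧ y o ≠ 0 := by
    rw [hy]
    rintro (i | i)
    · exact hx i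
    · refine ⟨H596.Q.conj_alg _ (hx i).1, fun h0 => (hx i).2 ?_⟩
      rwa [Sum.elim_inr, map_eq_zero] at h0
  have hyi : Function.Injective y := by
    rw [hy]
    rintro (i | i) (j | j) hij
    · exact congrArg Sum.inl (hxi hij)
    · exact absurd hij (hxc i j)
    · exact absurd hij.symm (hxc j i)
    · exact congrArg Sum.inr (hxi ((starRingEnd ℂ).injective hij))
  have hli := li_b1S hβ hβi hw hwi hya hyi
  obtain ⟨κ, c, hc, h⟩ := measure (by
    rintro ⟨l, _ | ⟨j, a⟩⟩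
    · show β l * 1 ∈ _
      rw [mul_one]
      exact ER_range (hβ l)
    · show β l * MZ.S (w a) (y j) ∈ _
      exact Subring.mul_mem _ (ER_range (hβ l)) (S_range (hw a).wo.2 (hya j).1 (hya j).2)) hli
  refine ⟨κ, c / 2, by positivity, fun H hH μ hμ hb => ?_⟩
  have hH0 : 0 < H := by linarith
  obtain ⟨Λ, hΛ⟩ : ∃ Λ : ℂ, Λ = ∑ o, (μ o : ℂ) * (β o.1 * o.2.elim 1 fun z =>
    MZ.T (w z.2) (x z.1)) := ⟨_, rfl⟩
  rw [← hΛ]
  have hΛ2 : Λ = ∑ l, ((μ (l, none) : ℂ) * β l + ∑ z : Fin m × Fin n,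
      (μ (l, some z) : ℂ) * (β l * MZ.T (w z.2) (x z.1))) := by
    rw [hΛ, Fintype.sum_prod_type]
    refine Finset.sum_congr rfl fun l _ => ?_
    rw [Fintype.sum_option]
    show (μ (l, none) : ℂ) * (β l * 1) + _ = _
    rw [mul_one]
    rfl
  by_cases hall : ∀ l z, μ (l, some z) = 0
  · obtain ⟨ν, hν⟩ : ∃ ν : Fin q × Option ((Fin m ⊕ Fin m) × Fin n) → ℤ,
      ν = fun o => o.2.elim (μ (o.1, none)) fun _ => 0 := ⟨_, rfl⟩
    have h1 := h H hH ν (by
      intro h0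
      refine hμ (funext ?_)
      rintro ⟨l, _ | z⟩
      · have h2 := congrFun h0 (l, none)
        rw [hν] at h2
        exact h2
      · exact hall l z) (by
      rw [hν]
      rintro ⟨l, _ | z⟩
      · exact hb _
      · show |((0 : ℤ) : ℝ)| ≤ H
        simpa using hH0.le)
    have h2 : ∑ o, (ν o : ℂ) * (β o.1 * o.2.elim 1 fun z => MZ.S (w z.2) (y z.1)) = Λ := by
      rw [hΛ2, Fintype.sum_prod_type]
      refine Finset.sum_congr rfl fun l _ => ?_
      rw [Fintype.sum_option, hν]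
      show (μ (l, none) : ℂ) * (β l * 1) + ∑ z : (Fin m ⊕ Fin m) × Fin n,
        ((0 : ℤ) : ℂ) * (β l * MZ.S (w z.2) (y z.1)) = _
      have e1 : ∑ z : (Fin m ⊕ Fin m) × Fin n, ((0 : ℤ) : ℂ) * (β l * MZ.S (w z.2) (y z.1)) = 0 :=
        Finset.sum_eq_zero fun z _ => by simp
      have e2 : ∑ z : Fin m × Fin n, (μ (l, some z) : ℂ) * (β l * MZ.T (w z.2) (x z.1)) = 0 :=
        Finset.sum_eq_zero fun z _ => by rw [hall]; simp
      rw [e1, e2, mul_one]
    rw [h2] at h1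
    refine le_trans ?_ h1
    exact div_le_div_of_nonneg_right (by linarith) (by positivity)
  · push Not at hall
    obtain ⟨l₀, z₀, hne⟩ := hall
    obtain ⟨ν, hν⟩ : ∃ ν : Fin q × Option ((Fin m ⊕ Fin m) × Fin n) → ℤ,
      ν = fun o => o.2.elim 0 fun z => z.1.elim (fun j => -μ (o.1, some (j, z.2)))
        fun j => μ (o.1, some (j, z.2)) := ⟨_, rfl⟩
    have h1 := h H hH ν (by
      intro h0
      have h2 := congrFun h0 (l₀, some (Sum.inr z₀.1, z₀.2))
      rw [hν] at h2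
      exact hne h2) (by
      rw [hν]
      rintro ⟨l, _ | ⟨j | j, a⟩⟩
      · show |((0 : ℤ) : ℝ)| ≤ H
        simpa using hH0.le
      · show |((-μ (l, some (j, a)) : ℤ) : ℝ)| ≤ H
        rw [Int.cast_neg, abs_neg]
        exact hb _
      · exact hb _)
    have h2 : ∑ o, (ν o : ℂ) * (β o.1 * o.2.elim 1 fun z => MZ.S (w z.2) (y z.1)) =
        Λ - (starRingEnd ℂ) Λ := by
      rw [hΛ2, map_sum, ← Finset.sum_sub_distrib, Fintype.sum_prod_type]
      refine Finset.sum_congr rfl fun l _ => ?_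
      rw [Fintype.sum_option, hν]
      show ((0 : ℤ) : ℂ) * (β l * 1) + ∑ z : (Fin m ⊕ Fin m) × Fin n,
        ((z.1.elim (fun j => -μ (l, some (j, z.2))) fun j => μ (l, some (j, z.2)) : ℤ) : ℂ) *
          (β l * MZ.S (w z.2) (y z.1)) = _
      rw [Int.cast_zero, zero_mul, zero_add, Fintype.sum_prod_type, Fintype.sum_sum_type,
        map_add, map_mul, map_intCast, hβr, map_sum, Fintype.sum_prod_type]
      have e1 : ∀ j : Fin m, ∑ a : Fin n, (((Sum.inl j : Fin m ⊕ Fin m).elim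
          (fun j => -μ (l, some (j, a))) fun j => μ (l, some (j, a)) : ℤ) : ℂ) *
          (β l * MZ.S (w a) (y (Sum.inl j))) =
          ∑ a : Fin n, -((μ (l, some (j, a)) : ℂ) * (β l * MZ.S (w a) (x j))) := by
        intro j
        refine Finset.sum_congr rfl fun a _ => ?_
        rw [hy]
        show ((-μ (l, some (j, a)) : ℤ) : ℂ) * (β l * MZ.S (w a) (x j)) = _
        push_cast
        ring
      have e2 : ∀ j : Fin m, ∑ a : Fin n, (((Sum.inr j : Fin m ⊕ Fin m).elim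
          (fun j => -μ (l, some (j, a))) fun j => μ (l, some (j, a)) : ℤ) : ℂ) *
          (β l * MZ.S (w a) (y (Sum.inr j))) =
          ∑ a : Fin n, (μ (l, some (j, a)) : ℂ) * (β l * (starRingEnd ℂ) (MZ.S (w a) (x j))) := by
        intro j
        refine Finset.sum_congr rfl fun a _ => ?_
        rw [hy]
        show (μ (l, some (j, a)) : ℂ) * (β l * MZ.S (w a) ((starRingEnd ℂ) (x j))) = _
        rw [L.S_conj]
      rw [Finset.sum_congr rfl fun j _ => e1 j, Finset.sum_congr rfl fun j _ => e2 j]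
      rw [Fintype.sum_prod_type]
      have e3 : ∀ j : Fin m, ∀ a : Fin n,
          (starRingEnd ℂ) ((μ (l, some (j, a)) : ℂ) * (β l * MZ.T (w a) (x j))) =
            (μ (l, some (j, a)) : ℂ) * (β l * (starRingEnd ℂ) (MZ.T (w a) (x j))) := by
        intro j a
        rw [map_mul, map_mul, map_intCast, hβr]
      simp only [e3]
      rw [add_sub_add_left_eq_sub, ← Finset.sum_add_distrib, ← Finset.sum_sub_distrib]
      refine Finset.sum_congr rfl fun j _ => ?_
      rw [← Finset.sum_add_distrib, ← Finset.sum_sub_distrib]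
      refine Finset.sum_congr rfl fun a _ => ?_
      rw [MZ.Tn_eq (hw a), map_sub, L.zt_conj]
      ring
    rw [h2] at h1
    have h3 : ‖Λ - (starRingEnd ℂ) Λ‖ ≤ 2 * ‖Λ‖ := by
      refine (norm_sub_le _ _).trans ?_
      rw [Complex.norm_conj]
      linarith
    have h4 : c / 2 / H ^ κ = (c / H ^ κ) / 2 := by ring
    rw [h4]
    linarith

end Pool.Agent.H488.W.Dsh
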