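import Mathlib

/-!
# Small integral relations between dependent integral vectors
-/

set_option autoImplicit false

namespace Pool.Agent.H488.W

attribute [local instance] Matrix.seminormedAddCommGroup

variable {ρ A : Type} [Fintype ρ] [Fintype A]

/-- **Small relations.** -/
theorem small_kernel (b : ρ → A → ℤ) (H : ℝ) (hH : 1 ≤ H) (hb : ∀ r a, |(b r a : ℝ)| ≤ H)
    (hdep : ¬ LinearIndependent ℚ (fun r a => (b r a : ℚ))) :
    ∃ l : ρ → ℤ, l ≠ 0 ∧ (∀ r, |(l r : ℝ)| ≤ (Fintype.card ρ * H) ^ Fintype.card A) ∧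
      ∀ a, ∑ r, l r * b r a = 0 := by
  classical
  obtain ⟨g, hg, r₀, hr₀⟩ := Fintype.not_linearIndependent_iff.1 hdep
  have hga : ∀ a, ∑ r, g r * (b r a : ℚ) = 0 := by
    intro a
    have h1 := congrFun hg a
    rw [Finset.sum_apply] at h1
    exact h1
  have hρ : 0 < Fintype.card ρ := Fintype.card_pos_iff.2 ⟨r₀⟩
  have hρH : 1 ≤ (Fintype.card ρ : ℝ) * H :=
    one_le_mul_of_one_le_of_one_le (by exact_mod_cast hρ) hH
  obtain ⟨col, hcol⟩ : ∃ col : A → ρ → ℚ, col = fun a r => (b r a : ℚ) := ⟨_, rfl⟩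
  obtain ⟨κ, e, he, hspan, hli⟩ := exists_linearIndependent' ℚ col
  have hκf : Finite κ := Finite.of_injective e he
  let inst : Fintype κ := Fintype.ofFinite κ
  have hcardA : Fintype.card κ ≤ Fintype.card A := Fintype.card_le_of_injective e he
  -- functionals vanishing on the chosen columns vanish on all columns
  have hvan : ∀ l : ρ → ℚ, (∀ k, ∑ r, l r * col (e k) r = 0) → ∀ a, ∑ r, l r * col a r = 0 := by
    intro l hl a
    obtain ⟨φ, hφ⟩ : ∃ φ : (ρ → ℚ) →ₗ[ℚ] ℚ, ∀ v, φ v = ∑ r, l r * v r :=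
      ⟨∑ r, l r • LinearMap.proj r, fun v => by simp⟩
    have h1 : Submodule.span ℚ (Set.range col) ≤ LinearMap.ker φ := by
      rw [← hspan, Submodule.span_le]
      rintro _ ⟨k, rfl⟩
      rw [SetLike.mem_coe, LinearMap.mem_ker, hφ]
      exact hl k
    have h2 := h1 (Submodule.subset_span ⟨a, rfl⟩)
    rw [LinearMap.mem_ker, hφ] at h2
    exact h2
  have hlt : Fintype.card κ < Fintype.card ρ := by
    by_contra hcon
    push Not at hcon
    have h1 := hli.fintype_card_le_finrank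
    rw [Module.finrank_fintype_fun_eq_card] at h1
    have h2 := hli.span_eq_top_of_card_eq_finrank' (by
      rw [Module.finrank_fintype_fun_eq_card]
      exact le_antisymm h1 hcon)
    obtain ⟨φ, hφ⟩ : ∃ φ : (ρ → ℚ) →ₗ[ℚ] ℚ, ∀ v, φ v = ∑ r, g r * v r :=
      ⟨∑ r, g r • LinearMap.proj r, fun v => by simp⟩
    have h3 : (⊤ : Submodule ℚ (ρ → ℚ)) ≤ LinearMap.ker φ := by
      rw [← h2, Submodule.span_le]
      rintro _ ⟨k, rfl⟩
      rw [SetLike.mem_coe, LinearMap.mem_ker, hφ]
      show ∑ r, g r * col (e k) r = 0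
      rw [hcol]
      exact hga (e k)
    have h4 := h3 (Submodule.mem_top (x := Pi.single r₀ (1 : ℚ)))
    rw [LinearMap.mem_ker, hφ, Finset.sum_eq_single r₀ (fun r _ hr => by
      rw [Pi.single_eq_of_ne hr, mul_zero]) (fun h => absurd (Finset.mem_univ _) h),
      Pi.single_eq_same, mul_one] at h4
    exact hr₀ h4
  by_cases hκ : Fintype.card κ = 0
  · have hem : IsEmpty κ := Fintype.card_eq_zero_iff.1 hκ
    refine ⟨Pi.single r₀ 1, fun h => ?_, fun r => ?_, fun a => ?_⟩
    · have := congrFun h r₀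
      rw [Pi.single_eq_same] at this
      exact one_ne_zero this
    · refine le_trans ?_ (one_le_pow₀ hρH)
      by_cases hr : r = r₀
      · rw [hr, Pi.single_eq_same]; simp
      · rw [Pi.single_eq_of_ne hr]; simp
    · have h1 := hvan (fun r => ((Pi.single r₀ 1 : ρ → ℤ) r : ℚ)) (fun k => (hem.false k).elim) a
      have h2 : ∑ r, ((Pi.single r₀ 1 : ρ → ℤ) r : ℚ) * (b r a : ℚ) = 0 := by
        rw [hcol] at h1
        exact h1
      exact_mod_cast h2
  · obtain ⟨M, hM⟩ : ∃ M : Matrix κ ρ ℤ, M = Matrix.of fun k r => b r (e k) := ⟨_, rfl⟩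
    obtain ⟨t, ht0, ht, htn⟩ := Int.Matrix.exists_ne_zero_int_vec_norm_le M hlt
      (Nat.pos_of_ne_zero hκ)
    refine ⟨t, ht0, fun r => ?_, fun a => ?_⟩
    · have h1 : |(t r : ℝ)| ≤ ‖t‖ := by
        have := norm_le_pi_norm t r
        rwa [Int.norm_eq_abs] at this
      have hMn : ‖M‖ ≤ H := by
        rw [Matrix.norm_le_iff (by linarith)]
        intro k r
        rw [hM, Matrix.of_apply, Int.norm_eq_abs]
        have := hb r (e k)
        simpa using this
      have hmax : max 1 ‖M‖ ≤ H := max_le hH hMn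
      have hm1 : (1 : ℝ) ≤ max 1 ‖M‖ := le_max_left _ _
      have hρ1 : (1 : ℝ) ≤ Fintype.card ρ := by exact_mod_cast hρ
      have hκ1 : (1 : ℝ) ≤ (Fintype.card ρ : ℝ) - Fintype.card κ := by
        have : (Fintype.card κ : ℝ) + 1 ≤ Fintype.card ρ := by exact_mod_cast hlt
        linarith
      have hbase : 1 ≤ (Fintype.card ρ : ℝ) * max 1 ‖M‖ := one_le_mul_of_one_le_of_one_le hρ1 hm1
      refine (h1.trans htn).trans ?_
      calc ((Fintype.card ρ : ℝ) * max 1 ‖M‖) ^ ((Fintype.card κ : ℝ) / (Fintype.card ρ - Fintype.card κ))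
          ≤ ((Fintype.card ρ : ℝ) * max 1 ‖M‖) ^ (Fintype.card A : ℝ) := by
            refine Real.rpow_le_rpow_of_exponent_le hbase ?_
            refine (div_le_self (Nat.cast_nonneg _) hκ1).trans ?_
            exact_mod_cast hcardA
        _ = ((Fintype.card ρ : ℝ) * max 1 ‖M‖) ^ Fintype.card A := Real.rpow_natCast _ _
        _ ≤ _ := pow_le_pow_left₀ (by linarith)
            (mul_le_mul_of_nonneg_left hmax (by linarith)) _
    · have h1 := hvan (fun r => (t r : ℚ)) (fun k => by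
        have h2 := congrFun ht k
        rw [Matrix.mulVec, dotProduct, Pi.zero_apply, hM] at h2
        rw [hcol]
        have h3 : (∑ r, (t r : ℚ) * (b r (e k) : ℚ)) = ((∑ r, b r (e k) * t r : ℤ) : ℚ) := by
          push_cast
          exact Finset.sum_congr rfl fun r _ => mul_comm _ _
        rw [h3]
        exact_mod_cast h2) a
      have h2 : ∑ r, (t r : ℚ) * (b r a : ℚ) = 0 := by
        rw [hcol] at h1
        exact h1
      exact_mod_cast h2

end Pool.Agent.H488.W
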