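import Pool.Agent.H488.W.Law

/-!
# Near linear relations at several points and at the point `0`
-/

set_option autoImplicit false

namespace Pool.Agent.H488.W

variable {A J : Type} [Fintype A] [Fintype J]

/-- the points, and the point `0` -/
noncomputable def TT (u : A → ℂ) (v : J → A → ℂ) (o : Option J) (a : A) : ℂ :=
  o.elim (u a) fun j => u a - v j a

/-- **Independence of near relations, also at the point `0`.** -/
theorem key0 {W : A → Prop} {u : A → ℂ} {v : J → A → ℂ} {k₀ : ℕ} {c₀ : ℝ} (h : Hyp W u v k₀ c₀) :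
    ∃ k₁ : ℕ, ∃ h₁ : ℝ, 1 ≤ h₁ ∧ ∀ H : ℝ, h₁ ≤ H → ∀ (p : Option J → ℕ)
      (b : (j : Option J) → Fin (p j) → A → ℤ),
      (∀ j s a, |(b j s a : ℝ)| ≤ H) →
      (∀ j s, ‖lf (TT u v j) (b j s)‖ ≤ 1 / H ^ k₁) →
      (∀ j, LinearIndependent ℚ (fun s => rat (b j s))) →
      LinearIndependent ℚ (fun q : (j : Option J) × Fin (p j) => rat (b q.1 q.2)) := by
  classical
  obtain ⟨cA, hcA⟩ : ∃ cA : ℕ, cA = Fintype.card A := ⟨_, rfl⟩
  obtain ⟨P₁, hP₁⟩ : ∃ P₁ : ℕ, P₁ = Fintype.card (Option J) * cA + cA + 1 := ⟨_, rfl⟩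
  obtain ⟨e, he⟩ : ∃ e : ℕ, e = (cA + 1) * (k₀ + 1) := ⟨_, rfl⟩
  have hc₀ := h.pos
  have hP1 : (1 : ℝ) ≤ P₁ := by
    have : 1 ≤ P₁ := by rw [hP₁]; omega
    exact_mod_cast this
  refine ⟨e + 1, 1 + (P₁ : ℝ) ^ e / c₀, ?_, ?_⟩
  · have h2 : 0 ≤ (P₁ : ℝ) ^ e / c₀ := by positivity
    linarith
  intro H hH p b hbH hbs hbi
  have hs2 : 0 ≤ (P₁ : ℝ) ^ e / c₀ := by positivity
  have hH1 : 1 ≤ H := by linarith
  have hH0 : 0 < H := by linarith
  have hHe : (P₁ : ℝ) ^ e / c₀ < H := by linarith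
  rw [div_lt_iff₀ hc₀] at hHe
  have hp : ∀ j, p j ≤ cA := by
    intro j
    have h1 := (hbi j).fintype_card_le_finrank
    rwa [Module.finrank_fintype_fun_eq_card, Fintype.card_fin, ← hcA] at h1
  have hsum : ∑ j, p j ≤ Fintype.card (Option J) * cA := by
    have := Finset.sum_le_card_nsmul Finset.univ p cA fun j _ => hp j
    rwa [smul_eq_mul, Finset.card_univ] at this
  by_contra hdep
  obtain ⟨vec, hvec⟩ : ∃ vec : ((j : Option J) × Fin (p j)) → A → ℤ,
      vec = fun q => b q.1 q.2 := ⟨_, rfl⟩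
  have hvec2 : (fun q : (j : Option J) × Fin (p j) => rat (b q.1 q.2)) =
      fun o a => (vec o a : ℚ) := by
    funext o
    rw [hvec]
    rfl
  rw [hvec2] at hdep
  obtain ⟨l, hl0, hlb, hl⟩ := small_kernel vec H hH1 (by
    rintro q a
    rw [hvec]; exact hbH _ _ a) hdep
  obtain ⟨L, hL⟩ : ∃ L : ℝ, L = ((P₁ : ℝ) * H) ^ cA := ⟨_, rfl⟩
  have hPH : 1 ≤ (P₁ : ℝ) * H := one_le_mul_of_one_le_of_one_le hP1 hH1
  have hL1 : 1 ≤ L := by rw [hL]; exact one_le_pow₀ hPH
  have hlL : ∀ o, |(l o : ℝ)| ≤ L := by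
    intro o
    refine (hlb o).trans ?_
    rw [← hcA, hL]
    refine pow_le_pow_left₀ (by positivity) (mul_le_mul_of_nonneg_right ?_ hH0.le) _
    rw [Fintype.card_sigma]
    simp only [Fintype.card_fin]
    have : ∑ j, p j ≤ P₁ := by rw [hP₁]; omega
    exact_mod_cast this
  obtain ⟨Q, hQ⟩ : ∃ Q : ℝ, Q = (P₁ : ℝ) * H * L := ⟨_, rfl⟩
  have hQ1 : 1 ≤ Q := by rw [hQ]; exact one_le_mul_of_one_le_of_one_le hPH hL1
  have hQe : Q ^ (k₀ + 1) = (P₁ : ℝ) ^ e * H ^ e := by
    rw [hQ, hL, ← pow_succ', ← pow_mul, ← mul_pow, he]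
  obtain ⟨μ, hμ⟩ : ∃ μ : Option J → A → ℤ, μ = fun j a => ∑ s, l ⟨j, s⟩ * b j s a := ⟨_, rfl⟩
  have hμQ : ∀ j a, |(μ j a : ℝ)| ≤ Q := by
    intro j a
    rw [hμ]
    push_cast
    calc |∑ s, (l ⟨j, s⟩ : ℝ) * (b j s a : ℝ)| ≤
          ∑ s, |(l ⟨j, s⟩ : ℝ) * (b j s a : ℝ)| := Finset.abs_sum_le_sum_abs _ _
      _ ≤ ∑ _s : Fin (p j), L * H := by
          refine Finset.sum_le_sum fun s _ => ?_
          rw [abs_mul]
          exact mul_le_mul (hlL _) (hbH _ _ _) (abs_nonneg _) (by linarith)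
      _ = (p j : ℝ) * (L * H) := by rw [Finset.sum_const, Finset.card_univ, Fintype.card_fin,
            nsmul_eq_mul]
      _ ≤ (P₁ : ℝ) * (L * H) := by
          refine mul_le_mul_of_nonneg_right ?_ (by positivity)
          have h1 := hp j
          have : p j ≤ P₁ := by rw [hP₁]; omega
          exact_mod_cast this
      _ = Q := by rw [hQ]; ring
  obtain ⟨T, hT⟩ : ∃ T : Option J → A → ℂ, T = TT u v := ⟨_, rfl⟩
  have hbs' : ∀ j s, ‖lf (T j) (b j s)‖ ≤ 1 / H ^ (e + 1) := by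
    intro j s
    rw [hT]
    exact hbs j s
  -- the values at the points
  have hval : ∀ j, ∑ a, (μ j a : ℂ) * T j a = ∑ s, (l ⟨j, s⟩ : ℂ) * lf (T j) (b j s) := by
    intro j
    rw [hμ]
    simp only [lf, Finset.mul_sum]
    rw [Finset.sum_comm]
    refine Finset.sum_congr rfl fun a _ => ?_
    push_cast
    rw [Finset.sum_mul]
    exact Finset.sum_congr rfl fun s _ => by ring
  have hvaln : ∀ j, ‖∑ a, (μ j a : ℂ) * T j a‖ ≤ (p j : ℝ) * (L * (1 / H ^ (e + 1))) := by
    intro j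
    rw [hval j]
    calc ‖∑ s, (l ⟨j, s⟩ : ℂ) * lf (T j) (b j s)‖
        ≤ ∑ s, ‖(l ⟨j, s⟩ : ℂ) * lf (T j) (b j s)‖ := norm_sum_le _ _
      _ ≤ ∑ _s : Fin (p j), L * (1 / H ^ (e + 1)) := by
          refine Finset.sum_le_sum fun s _ => ?_
          rw [norm_mul, Complex.norm_intCast]
          exact mul_le_mul (hlL _) (hbs' _ _) (norm_nonneg _) (by linarith)
      _ = _ := by rw [Finset.sum_const, Finset.card_univ, Fintype.card_fin, nsmul_eq_mul]
  have hsmall : ∀ x : ℝ, x ≤ (P₁ : ℝ) * (L * (1 / H ^ (e + 1))) → ¬ c₀ ≤ Q ^ k₀ * x := by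
    intro x hx hc
    have hx2 : x ≤ Q * (1 / H ^ (e + 1)) := by
      refine hx.trans ?_
      rw [hQ]
      calc (P₁ : ℝ) * (L * (1 / H ^ (e + 1))) = 1 * ((P₁ : ℝ) * (L * (1 / H ^ (e + 1)))) := by ring
        _ ≤ H * ((P₁ : ℝ) * (L * (1 / H ^ (e + 1)))) :=
            mul_le_mul_of_nonneg_right hH1 (by positivity)
        _ = _ := by ring
    have h1 : c₀ ≤ Q ^ (k₀ + 1) * (1 / H ^ (e + 1)) := by
      refine hc.trans ?_
      rw [pow_succ, mul_assoc]
      exact mul_le_mul_of_nonneg_left hx2 (by positivity)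
    rw [hQe] at h1
    have h2 : (P₁ : ℝ) ^ e * H ^ e * (1 / H ^ (e + 1)) = (P₁ : ℝ) ^ e / H := by
      rw [pow_succ]; field_simp
    rw [h2, le_div_iff₀ hH0] at h1
    linarith
  have hsumμ : ∀ a, ∑ j, μ j a = 0 := by
    intro a
    have h1 := hl a
    rw [hvec] at h1
    rw [Fintype.sum_sigma] at h1
    rw [hμ]
    exact h1
  have hu0 : ∑ j, ∑ a, (μ j a : ℂ) * u a = 0 := by
    rw [Finset.sum_comm]
    refine Finset.sum_eq_zero fun a _ => ?_
    rw [← Finset.sum_mul]
    have h2 : (∑ j, (μ j a : ℂ)) = 0 := by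
      exact_mod_cast congrArg (fun z : ℤ => (z : ℂ)) (hsumμ a)
    rw [h2, zero_mul]
  have hT0 : ∀ a, T none a = u a := fun a => by rw [hT]; rfl
  have hTs : ∀ j a, T (some j) a = u a - v j a := fun j a => by rw [hT]; rfl
  have hv1 : ∑ j, ∑ a, (μ (some j) a : ℂ) * v j a = -∑ j, ∑ a, (μ j a : ℂ) * T j a := by
    rw [Fintype.sum_option] at hu0 ⊢
    have h1 : ∑ j, ∑ a, (μ (some j) a : ℂ) * T (some j) a = ∑ j, ∑ a, (μ (some j) a : ℂ) * u a -
        ∑ j, ∑ a, (μ (some j) a : ℂ) * v j a := by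
      rw [← Finset.sum_sub_distrib]
      refine Finset.sum_congr rfl fun j _ => ?_
      rw [← Finset.sum_sub_distrib]
      refine Finset.sum_congr rfl fun a _ => ?_
      rw [hTs]
      ring
    have h2 : ∑ a, (μ none a : ℂ) * T none a = ∑ a, (μ none a : ℂ) * u a :=
      Finset.sum_congr rfl fun a _ => by rw [hT0]
    rw [h1, h2]
    linear_combination hu0
  have hv2 : ‖∑ j, ∑ a, (μ (some j) a : ℂ) * v j a‖ ≤ (P₁ : ℝ) * (L * (1 / H ^ (e + 1))) := by
    rw [hv1, norm_neg]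
    calc ‖∑ j, ∑ a, (μ j a : ℂ) * T j a‖ ≤ ∑ j, ‖∑ a, (μ j a : ℂ) * T j a‖ := norm_sum_le _ _
      _ ≤ ∑ j, (p j : ℝ) * (L * (1 / H ^ (e + 1))) := Finset.sum_le_sum fun j _ => hvaln j
      _ = ((∑ j, p j : ℕ) : ℝ) * (L * (1 / H ^ (e + 1))) := by
          push_cast; rw [Finset.sum_mul]
      _ ≤ _ := by
          refine mul_le_mul_of_nonneg_right ?_ (by positivity)
          have : ∑ j, p j ≤ P₁ := by rw [hP₁]; omega
          exact_mod_cast this
  have hv0 : ∑ j, ∑ a, (μ (some j) a : ℂ) * v j a = 0 := by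
    by_contra hne
    exact hsmall _ hv2 (h.meas (fun j => μ (some j)) Q hQ1 (fun j => hμQ _) hne)
  have hW := h.ind (fun j => μ (some j)) hv0
  have hμs : ∀ j, μ (some j) = 0 := by
    intro j
    by_contra hne
    refine hsmall ‖∑ a, (μ (some j) a : ℂ) * u a‖ ?_
      (h.cmeas (μ (some j)) hne (hW j) Q hQ1 (hμQ (some j)))
    have h1 : ∑ a, (μ (some j) a : ℂ) * u a = ∑ a, (μ (some j) a : ℂ) * T (some j) a := by
      refine Finset.sum_congr rfl fun a _ => ?_
      by_cases hWa : W a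
      · have h0 : μ (some j) a = 0 := hW j a hWa
        rw [h0]; simp
      · rw [hTs, h.cst j a hWa, sub_zero]
    rw [h1]
    refine (hvaln (some j)).trans ?_
    refine mul_le_mul_of_nonneg_right ?_ (by positivity)
    have h1 := hp (some j)
    have : p (some j) ≤ P₁ := by rw [hP₁]; omega
    exact_mod_cast this
  have hμn : μ none = 0 := by
    funext a
    have h1 := hsumμ a
    rw [Fintype.sum_option, Finset.sum_eq_zero (fun j _ => congrFun (hμs j) a), add_zero] at h1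
    exact h1
  have hμ0 : ∀ o, μ o = 0 := by
    rintro (_ | j)
    · exact hμn
    · exact hμs j
  have hlj : ∀ j s, l ⟨j, s⟩ = 0 := by
    intro j s
    have h1 := Fintype.linearIndependent_iff.1 (hbi j) (fun s => (l ⟨j, s⟩ : ℚ)) (by
      funext a
      have h2 := congrFun (hμ0 j) a
      rw [hμ] at h2
      rw [Finset.sum_apply]
      have h3 : ∑ s, (l ⟨j, s⟩ : ℚ) * (b j s a : ℚ) = 0 := by exact_mod_cast h2
      exact h3) s
    exact_mod_cast h1
  exact hl0 (funext fun ⟨j, s⟩ => hlj j s)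

/-- the direct sum -/
theorem direct0 {W : A → Prop} {u : A → ℂ} {v : J → A → ℂ} {k₀ : ℕ} {c₀ : ℝ}
    (h : Hyp W u v k₀ c₀) : ∃ k₁ : ℕ, ∃ h₁ : ℝ, 1 ≤ h₁ ∧ ∀ κ : ℕ, k₁ ≤ κ → ∀ H : ℝ, h₁ ≤ H →
      (∀ c : Option J → A → ℚ, (∀ o, c o ∈ NS (TT u v o) κ H) → ∑ o, c o = 0 → ∀ o, c o = 0) ∧
      ∑ o, Module.finrank ℚ (NS (TT u v o) κ H) ≤ Fintype.card A := by
  classical
  obtain ⟨k₁, h₁, hh₁, hk⟩ := key0 h
  refine ⟨k₁, h₁, hh₁, fun κ hκ H hH => ?_⟩
  have hH1 : 1 ≤ H := hh₁.trans hH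
  choose b hb hbi hbs using fun o => exists_near_basis (TT u v o) κ H
  have hli := hk H hH _ b (fun j s a => (hb j s).1 a) (fun j s => (NV_anti hH1 hκ (hb j s)).2) hbi
  refine ⟨fun c hc hsum => ?_, ?_⟩
  · have hc' : ∀ j, ∃ β : Fin (Module.finrank ℚ (NS (TT u v j) κ H)) → ℚ,
        ∑ s, β s • rat (b j s) = c j := fun j => by
      have h1 := hc j
      rw [← hbs j] at h1
      exact (Submodule.mem_span_range_iff_exists_fun ℚ).1 h1
    choose β hβ using hc'
    have h1 := Fintype.linearIndependent_iff.1 hli (fun q => β q.1 q.2) (by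
      rw [Fintype.sum_sigma]
      simp only
      rw [Finset.sum_congr rfl fun j _ => hβ j]
      exact hsum)
    intro j
    rw [← hβ j]
    exact Finset.sum_eq_zero fun s _ => by
      have h2 : β j s = 0 := h1 ⟨j, s⟩
      rw [h2, zero_smul]
  · have h1 := hli.fintype_card_le_finrank
    rw [Module.finrank_fintype_fun_eq_card, Fintype.card_sigma] at h1
    simp only [Fintype.card_fin] at h1
    exact h1

/-- the sum of the dimensions -/
noncomputable def tot0 {O : Type} [Fintype O] (T : O → A → ℂ) (κ : ℕ) (H : ℝ) : ℕ :=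
  ∑ o, Module.finrank ℚ (NS (T o) κ H)

/-- the law of the near relations, all points alike -/
def LawG {O : Type} [Fintype O] (E κ : ℕ) (T : O → A → ℂ) : Prop :=
  (∃ H₀ : ℝ, ∀ H : ℝ, H₀ ≤ H →
    (∀ c : O → A → ℚ, (∀ o, c o ∈ NS (T o) κ H) → ∑ o, c o = 0 → ∀ o, c o = 0) ∧
    tot0 T κ H ≤ Fintype.card A ∧
    (tot0 T κ H = Fintype.card A →
      (∀ Y : ℝ, H ≤ Y → ∀ j, NS (T j) κ Y = RS (T j)) ∨
      ∃ Z : ℝ, H ≤ Z ∧ (∀ Y : ℝ, H ≤ Y → Y ≤ Z → ∀ j, NS (T j) κ Y ≤ NS (T j) κ H) ∧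
        ∀ Y : ℝ, Z < Y → Y ≤ Z ^ E → tot0 T κ Y < Fintype.card A)) ∧
  ((∑ j, Module.finrank ℚ (RS (T j)) = Fintype.card A) ↔
    ∃ H₁ : ℝ, ∀ H : ℝ, H₁ ≤ H → tot0 T κ H = Fintype.card A)

/-- **The law of the near relations**, deduced from the direct sum. -/
theorem lawG {O : Type} [Fintype O] {T : O → A → ℂ} {k₁ : ℕ} {h₁ : ℝ} (hh₁ : 1 ≤ h₁)
    (hdir : ∀ κ : ℕ, k₁ ≤ κ → ∀ H : ℝ, h₁ ≤ H →
      (∀ c : O → A → ℚ, (∀ o, c o ∈ NS (T o) κ H) → ∑ o, c o = 0 → ∀ o, c o = 0) ∧
      tot0 T κ H ≤ Fintype.card A) (E : ℕ) (hE : 2 ≤ E) : ∃ κ : ℕ, LawG E κ T := by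
  classical
  obtain ⟨cA, hcA⟩ : ∃ cA : ℕ, cA = Fintype.card A := ⟨_, rfl⟩
  obtain ⟨w, hw⟩ : ∃ w : ℕ, w = E * k₁ + k₁ + 1 := ⟨_, rfl⟩
  obtain ⟨κ, hκ⟩ : ∃ κ : ℕ, κ = w + cA + 1 := ⟨_, rfl⟩
  have hκ1 : k₁ ≤ κ := by rw [hκ, hw]; nlinarith
  obtain ⟨C, hC⟩ : ∃ C : ℝ, C = ((cA : ℝ) + 1) ^ (cA + 1) := ⟨_, rfl⟩
  have hC0 : 0 < C := by rw [hC]; positivity
  obtain ⟨H₀, hH₀⟩ : ∃ H₀ : ℝ, H₀ = h₁ + C + 1 := ⟨_, rfl⟩
  -- spaces at larger scales
  have ext : ∀ H Y : ℝ, h₁ ≤ H → H ≤ Y → tot0 T κ H = Fintype.card A →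
      (∀ j, NS (T j) κ H ≤ NS (T j) k₁ Y) → ∀ j, NS (T j) κ Y ≤ NS (T j) κ H := by
    intro H Y hH hHY htot hle j
    have h1 := (hdir k₁ le_rfl Y (hH.trans hHY)).2
    have h2 : Module.finrank ℚ (NS (T j) κ H) = Module.finrank ℚ (NS (T j) k₁ Y) := by
      refine le_antisymm (Submodule.finrank_mono (hle j)) ?_
      by_contra hcon
      push Not at hcon
      have h3 : ∑ j, Module.finrank ℚ (NS (T j) κ H) < ∑ j, Module.finrank ℚ (NS (T j) k₁ Y) :=
        Finset.sum_lt_sum (fun j _ => Submodule.finrank_mono (hle j)) ⟨j, Finset.mem_univ j, hcon⟩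
      rw [tot0] at h1 htot
      omega
    rw [Submodule.eq_of_le_of_finrank_eq (hle j) h2]
    exact NS_anti (hh₁.trans (hH.trans hHY)) hκ1
  have main : ∀ H : ℝ, H₀ ≤ H → tot0 T κ H = Fintype.card A →
      (∀ Y : ℝ, H ≤ Y → ∀ j, NS (T j) κ Y = RS (T j)) ∨
      ∃ Z : ℝ, H ≤ Z ∧ (∀ Y : ℝ, H ≤ Y → Y ≤ Z → ∀ j, NS (T j) κ Y ≤ NS (T j) κ H) ∧
        ∀ Y : ℝ, Z < Y → Y ≤ Z ^ E → tot0 T κ Y < Fintype.card A := by
    intro H hH htot
    have hHh : h₁ ≤ H := by linarith
    have hH1 : 1 ≤ H := hh₁.trans hHh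
    choose b hb hbi hbs using fun j => exists_near_basis (T j) κ H
    have hle : ∀ Y : ℝ, H ≤ Y → (∀ j s, ‖lf (T j) (b j s)‖ ≤ 1 / Y ^ k₁) →
        ∀ j, NS (T j) κ H ≤ NS (T j) k₁ Y := by
      intro Y hY hs j
      rw [← hbs j, Submodule.span_le]
      rintro _ ⟨s, rfl⟩
      exact NS_mem ⟨fun a => ((hb j s).1 a).trans hY, hs j s⟩
    by_cases hall : ∀ j s, lf (T j) (b j s) = 0
    · left
      have hext : ∀ Y : ℝ, H ≤ Y → ∀ j, NS (T j) κ Y ≤ NS (T j) κ H := fun Y hY =>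
        ext H Y hHh hY htot (hle Y hY fun j s => by
          rw [hall, norm_zero]
          have : 0 < Y := by linarith
          positivity)
      have h1 : ∀ j, NS (T j) κ H ≤ RS (T j) := by
        intro j
        rw [← hbs j, Submodule.span_le]
        rintro _ ⟨s, rfl⟩
        exact mem_RS_rat.2 (hall j s)
      have h2 : ∀ j, RS (T j) ≤ NS (T j) κ H := by
        intro j
        obtain ⟨h₀, hh₀⟩ := RS_le (T j) κ
        exact (hh₀ _ (le_max_left h₀ H)).trans (hext _ (le_max_right _ _) j)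
      intro Y hY j
      refine le_antisymm ((hext Y hY j).trans (h1 j)) ((h2 j).trans ?_)
      rw [← hbs j, Submodule.span_le]
      rintro _ ⟨s, rfl⟩
      refine NS_mem ⟨fun a => ((hb j s).1 a).trans hY, ?_⟩
      rw [hall, norm_zero]
      have : 0 < Y := by linarith
      positivity
    · right
      push Not at hall
      obtain ⟨j₁, s₁, hne⟩ := hall
      obtain ⟨e, he⟩ : ∃ e : ((j : O) × Fin (Module.finrank ℚ (NS (T j) κ H))) → ℝ,
          e = fun q => ‖lf (T q.1) (b q.1 q.2)‖ := ⟨_, rfl⟩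
      obtain ⟨q₀, -, hmax⟩ := Finset.exists_max_image Finset.univ e ⟨⟨j₁, s₁⟩, Finset.mem_univ _⟩
      have hpos : 0 < e q₀ := by
        refine lt_of_lt_of_le ?_ (hmax ⟨j₁, s₁⟩ (Finset.mem_univ _))
        rw [he]
        exact norm_pos_iff.2 hne
      have hw0 : w ≠ 0 := by omega
      obtain ⟨Z, hZ⟩ : ∃ Z : ℝ, Z = (1 / e q₀) ^ ((w : ℝ)⁻¹) := ⟨_, rfl⟩
      have hZ0 : 0 < Z := by rw [hZ]; positivity
      have hZW : Z ^ w = 1 / e q₀ := by
        rw [hZ]; exact Real.rpow_inv_natCast_pow (by positivity) hw0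
      have hpZ : e q₀ = 1 / Z ^ w := by rw [hZW]; simp
      have he₀ : e q₀ < 1 / H ^ w := by
        have h1 : e q₀ ≤ 1 / H ^ κ := by
          rw [he]
          exact (hb q₀.1 q₀.2).2
        refine h1.trans_lt ?_
        refine one_div_lt_one_div_of_lt (by positivity) ?_
        exact pow_lt_pow_right₀ (by linarith) (by rw [hκ]; omega)
      have hHZ : H ≤ Z := by
        by_contra hcon
        push Not at hcon
        have h3 : Z ^ w < H ^ w := pow_lt_pow_left₀ hcon hZ0.le hw0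
        have h4 : 1 / H ^ w < 1 / Z ^ w := one_div_lt_one_div_of_lt (by positivity) h3
        rw [← hpZ] at h4
        linarith
      have hZ1 : 1 ≤ Z := hH1.trans hHZ
      refine ⟨Z, hHZ, fun Y hHY hYZ => ext H Y hHh hHY htot (hle Y hHY fun j s => ?_),
        fun Y hZY hYE => ?_⟩
      · have hY1 : 1 ≤ Y := hH1.trans hHY
        have h1 : ‖lf (T j) (b j s)‖ ≤ e q₀ := by
          have := hmax ⟨j, s⟩ (Finset.mem_univ _)
          rw [he] at this ⊢
          exact this
        refine h1.trans ?_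
        rw [hpZ]
        refine one_div_le_one_div_of_le (by positivity) ?_
        calc Y ^ k₁ ≤ Z ^ k₁ := pow_le_pow_left₀ (by linarith) hYZ _
          _ ≤ Z ^ w := pow_le_pow_right₀ hZ1 (by rw [hw]; nlinarith)
      · have hHY : H ≤ Y := by linarith
        have hY1 : 1 ≤ Y := hH1.trans hHY
        have hY0 : 0 < Y := by linarith
        have hsub := ext H Y hHh hHY htot (hle Y hHY fun j s => by
          have h1 : ‖lf (T j) (b j s)‖ ≤ e q₀ := by
            have := hmax ⟨j, s⟩ (Finset.mem_univ _)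
            rw [he] at this ⊢
            exact this
          refine h1.trans ?_
          rw [hpZ]
          refine one_div_le_one_div_of_le (by positivity) ?_
          calc Y ^ k₁ ≤ (Z ^ E) ^ k₁ := pow_le_pow_left₀ hY0.le hYE _
            _ = Z ^ (E * k₁) := by rw [pow_mul]
            _ ≤ Z ^ w := pow_le_pow_right₀ hZ1 (by rw [hw]; omega))
        refine lt_of_le_of_ne (hdir κ hκ1 Y (hHh.trans hHY)).2 fun htotY => ?_
        -- equal spaces
        have heq : NS (T q₀.1) κ Y = NS (T q₀.1) κ H := by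
          refine Submodule.eq_of_le_of_finrank_eq (hsub q₀.1) ?_
          refine le_antisymm (Submodule.finrank_mono (hsub q₀.1)) ?_
          by_contra hcon
          push Not at hcon
          have h3 : ∑ j, Module.finrank ℚ (NS (T j) κ Y) < ∑ j, Module.finrank ℚ (NS (T j) κ H) :=
            Finset.sum_lt_sum (fun j _ => Submodule.finrank_mono (hsub j))
              ⟨q₀.1, Finset.mem_univ _, hcon⟩
          rw [tot0] at htotY htot
          omega
        obtain ⟨c, hc, hci, hcs⟩ := exists_near_basis (T q₀.1) κ Y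
        obtain ⟨m, hm⟩ : ∃ m : ℕ, m = Module.finrank ℚ (NS (T q₀.1) κ Y) := ⟨_, rfl⟩
        have hbmem : rat (b q₀.1 q₀.2) ∈ Submodule.span ℚ (Set.range fun s => rat (c s)) := by
          rw [hcs, heq]
          exact NS_mem (hb q₀.1 q₀.2)
        have hmA : m ≤ cA := by
          have h1 := hci.fintype_card_le_finrank
          rw [Module.finrank_fintype_fun_eq_card, Fintype.card_fin, ← hm, ← hcA] at h1
          exact h1
        obtain ⟨vec, hvec⟩ : ∃ vec : Option (Fin (Module.finrank ℚ (NS (T q₀.1) κ Y))) → A → ℤ,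
            vec = fun o => o.elim (b q₀.1 q₀.2) c := ⟨_, rfl⟩
        have hdep : ¬ LinearIndependent ℚ (fun o a => (vec o a : ℚ)) := by
          intro hli
          have h1 : LinearIndependent ℚ (fun o : Option (Fin (Module.finrank ℚ
              (NS (T q₀.1) κ Y))) => (o.casesOn' (rat (b q₀.1 q₀.2)) (fun s => rat (c s)) :
                A → ℚ)) := by
            have e : (fun o : Option (Fin (Module.finrank ℚ
              (NS (T q₀.1) κ Y))) => (o.casesOn' (rat (b q₀.1 q₀.2)) (fun s => rat (c s)) :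
                A → ℚ)) = fun o a => (vec o a : ℚ) := by
              funext o
              rw [hvec]
              rcases o with _ | s <;> rfl
            rw [e]
            exact hli
          exact (linearIndependent_option'.1 h1).2 hbmem
        obtain ⟨l, hl0, hlb, hl⟩ := small_kernel vec Y hY1 (by
          rintro (_ | s) a
          · rw [hvec]; exact ((hb q₀.1 q₀.2).1 a).trans hHY
          · rw [hvec]; exact (hc s).1 a) hdep
        have hl1 : ∀ a, l none * b q₀.1 q₀.2 a + ∑ s, l (some s) * c s a = 0 := by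
          intro a
          have h1 := hl a
          rw [Fintype.sum_option, hvec] at h1
          exact h1
        have hln : l none ≠ 0 := by
          intro h0
          refine hl0 (funext fun o => ?_)
          rcases o with _ | s
          · exact h0
          · have h1 := Fintype.linearIndependent_iff.1 hci (fun s => (l (some s) : ℚ)) (by
              funext a
              have h2 := hl1 a
              rw [h0, zero_mul, zero_add] at h2
              rw [Finset.sum_apply]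
              have h3 : ∑ s, (l (some s) : ℚ) * (c s a : ℚ) = 0 := by exact_mod_cast h2
              exact h3) s
            exact_mod_cast h1
        have hval : (l none : ℂ) * lf (T q₀.1) (b q₀.1 q₀.2) =
            -∑ s, (l (some s) : ℂ) * lf (T q₀.1) (c s) := by
          have h1 : (l none : ℂ) * lf (T q₀.1) (b q₀.1 q₀.2) +
              ∑ s, (l (some s) : ℂ) * lf (T q₀.1) (c s) = 0 := by
            simp only [lf, Finset.mul_sum]
            rw [Finset.sum_comm, ← Finset.sum_add_distrib]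
            refine Finset.sum_eq_zero fun a _ => ?_
            have h2 : (l none : ℂ) * (b q₀.1 q₀.2 a : ℂ) + ∑ s, (l (some s) : ℂ) * (c s a : ℂ) = 0 := by
              exact_mod_cast congrArg (fun z : ℤ => (z : ℂ)) (hl1 a)
            calc (l none : ℂ) * ((b q₀.1 q₀.2 a : ℂ) * T q₀.1 a) +
                  ∑ s, (l (some s) : ℂ) * ((c s a : ℂ) * T q₀.1 a) =
                  ((l none : ℂ) * (b q₀.1 q₀.2 a : ℂ) + ∑ s, (l (some s) : ℂ) * (c s a : ℂ)) *
                    T q₀.1 a := by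
                  rw [add_mul, Finset.sum_mul]
                  congr 1
                  · ring
                  · exact Finset.sum_congr rfl fun s _ => by ring
              _ = 0 := by rw [h2, zero_mul]
          exact eq_neg_of_add_eq_zero_left h1
        have hLb : ∀ o, |(l o : ℝ)| ≤ (((cA : ℝ) + 1) * Y) ^ cA := by
          intro o
          refine (hlb o).trans ?_
          rw [← hcA]
          refine pow_le_pow_left₀ (by positivity) (mul_le_mul_of_nonneg_right ?_ hY0.le) _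
          rw [Fintype.card_option, Fintype.card_fin, ← hm]
          exact_mod_cast Nat.succ_le_succ hmA
        have hfin : e q₀ ≤ C / Y ^ (w + 1) := by
          have h1 : e q₀ ≤ ‖(l none : ℂ) * lf (T q₀.1) (b q₀.1 q₀.2)‖ := by
            rw [norm_mul, Complex.norm_intCast, he]
            have : (1 : ℝ) ≤ |(l none : ℝ)| := by exact_mod_cast Int.one_le_abs hln
            exact le_mul_of_one_le_left (norm_nonneg _) this
          refine h1.trans ?_
          rw [hval, norm_neg]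
          calc ‖∑ s, (l (some s) : ℂ) * lf (T q₀.1) (c s)‖ ≤
                ∑ s, ‖(l (some s) : ℂ) * lf (T q₀.1) (c s)‖ := norm_sum_le _ _
            _ ≤ ∑ _s : Fin (Module.finrank ℚ (NS (T q₀.1) κ Y)),
                (((cA : ℝ) + 1) * Y) ^ cA * (1 / Y ^ κ) := by
                refine Finset.sum_le_sum fun s _ => ?_
                rw [norm_mul, Complex.norm_intCast]
                exact mul_le_mul (hLb _) (hc s).2 (norm_nonneg _) (by positivity)
            _ = (m : ℝ) * ((((cA : ℝ) + 1) * Y) ^ cA * (1 / Y ^ κ)) := by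
                rw [Finset.sum_const, Finset.card_univ, Fintype.card_fin, nsmul_eq_mul, ← hm]
            _ ≤ ((cA : ℝ) + 1) * ((((cA : ℝ) + 1) * Y) ^ cA * (1 / Y ^ κ)) := by
                refine mul_le_mul_of_nonneg_right ?_ (by positivity)
                have : (m : ℝ) ≤ cA := by exact_mod_cast hmA
                linarith
            _ = C / Y ^ (w + 1) := by
                rw [hC, mul_pow, hκ]
                have : w + cA + 1 = (w + 1) + cA := by omega
                rw [this, pow_add Y (w + 1) cA, pow_succ ((cA : ℝ) + 1) cA]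
                field_simp
        rw [hpZ] at hfin
        have h5 : 1 / Y ^ w < 1 / Z ^ w :=
          one_div_lt_one_div_of_lt (by positivity) (pow_lt_pow_left₀ hZY hZ0.le hw0)
        have h6 : 1 / Y ^ w < C / Y ^ (w + 1) := h5.trans_le hfin
        rw [pow_succ, div_lt_div_iff₀ (by positivity) (by positivity), one_mul,
          mul_comm (Y ^ w) Y] at h6
        have h7 : Y < C := lt_of_mul_lt_mul_right h6 (by positivity)
        linarith
  refine ⟨κ, ⟨H₀, fun H hH => ⟨(hdir κ hκ1 H (by linarith)).1, (hdir κ hκ1 H (by linarith)).2,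
    main H hH⟩⟩, ?_, ?_⟩
  · intro heq
    choose g hg using fun j => RS_le (T j) κ
    refine ⟨H₀ + ∑ j, |g j|, fun H hH => ?_⟩
    have hs : 0 ≤ ∑ j, |g j| := Finset.sum_nonneg fun _ _ => abs_nonneg _
    refine le_antisymm (hdir κ hκ1 H (by linarith)).2 ?_
    rw [← heq, tot0]
    refine Finset.sum_le_sum fun j _ => ?_
    refine Submodule.finrank_mono (hg j H ?_)
    have h1 : |g j| ≤ ∑ j, |g j| :=
      Finset.single_le_sum (f := fun j => |g j|) (fun _ _ => abs_nonneg _) (Finset.mem_univ j)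
    have h2 := le_abs_self (g j)
    linarith
  · rintro ⟨H₁, h1⟩
    obtain ⟨H, hHd⟩ : ∃ H : ℝ, H = max (max H₀ H₁) 2 := ⟨_, rfl⟩
    have hHH₀ : H₀ ≤ H := by rw [hHd]; exact (le_max_left _ _).trans (le_max_left _ _)
    have hHH₁ : H₁ ≤ H := by rw [hHd]; exact (le_max_right _ _).trans (le_max_left _ _)
    have hH2 : 2 ≤ H := by rw [hHd]; exact le_max_right _ _
    rcases main H hHH₀ (h1 H hHH₁) with h2 | ⟨Z, hZ, -, h3⟩
    · have h4 := h1 H hHH₁
      rw [tot0] at h4
      rw [← h4]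
      exact Finset.sum_congr rfl fun j _ => by rw [h2 H le_rfl j]
    · exfalso
      have hZ2 : 2 ≤ Z := hH2.trans hZ
      have hlt : Z < Z ^ E := by
        calc Z < Z ^ 2 := by nlinarith
          _ ≤ Z ^ E := pow_le_pow_right₀ (by linarith) hE
      have h6 := h3 (Z ^ E) hlt le_rfl
      have h7 := h1 (Z ^ E) (by linarith)
      omega

end Pool.Agent.H488.W
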