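import Pool.Agent.H488.W.Ker

/-!
# Near linear relations at several points are independent
-/

set_option autoImplicit false

namespace Pool.Agent.H488.W

variable {A J : Type} [Fintype A] [Fintype J]

/-- the rational vector -/
def rat (c : A → ℤ) : A → ℚ := fun a => (c a : ℚ)

/-- the value of a linear form -/
noncomputable def lf (T : A → ℂ) (c : A → ℤ) : ℂ := ∑ a, (c a : ℂ) * T a

/-- the vectors of the near relations -/
def NV (T : A → ℂ) (κ : ℕ) (H : ℝ) : Set (A → ℤ) :=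
  {c | (∀ a, |(c a : ℝ)| ≤ H) ∧ ‖lf T c‖ ≤ 1 / H ^ κ}

/-- the space generated by the near relations -/
def NS (T : A → ℂ) (κ : ℕ) (H : ℝ) : Submodule ℚ (A → ℚ) := Submodule.span ℚ (rat '' NV T κ H)

/-- the space of the relations -/
noncomputable def RS (T : A → ℂ) : Submodule ℚ (A → ℚ) :=
  LinearMap.ker (Fintype.linearCombination ℚ T)

/-- the hypotheses -/
structure Hyp (W : A → Prop) (u : A → ℂ) (v : J → A → ℂ) (k₀ : ℕ) (c₀ : ℝ) : Prop where
  pos : 0 < c₀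
  meas : ∀ μ : J → A → ℤ, ∀ H : ℝ, 1 ≤ H → (∀ j a, |(μ j a : ℝ)| ≤ H) →
    ∑ j, ∑ a, (μ j a : ℂ) * v j a ≠ 0 → c₀ ≤ H ^ k₀ * ‖∑ j, ∑ a, (μ j a : ℂ) * v j a‖
  ind : ∀ μ : J → A → ℤ, ∑ j, ∑ a, (μ j a : ℂ) * v j a = 0 → ∀ j a, W a → μ j a = 0
  cst : ∀ j a, ¬ W a → v j a = 0
  cmeas : ∀ c : A → ℤ, c ≠ 0 → (∀ a, W a → c a = 0) → ∀ H : ℝ, 1 ≤ H → (∀ a, |(c a : ℝ)| ≤ H) →
    c₀ ≤ H ^ k₀ * ‖∑ a, (c a : ℂ) * u a‖

lemma mem_RS {T : A → ℂ} {c : A → ℚ} : c ∈ RS T ↔ ∑ a, (c a : ℂ) * T a = 0 := by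
  rw [RS, LinearMap.mem_ker, Fintype.linearCombination_apply]
  have h : ∑ a, c a • T a = ∑ a, (c a : ℂ) * T a :=
    Finset.sum_congr rfl fun a _ => Rat.smul_def _ _
  rw [h]

lemma mem_RS_rat {T : A → ℂ} {c : A → ℤ} : rat c ∈ RS T ↔ lf T c = 0 := by
  rw [mem_RS, lf]
  simp [rat]

/-- a common denominator -/
lemma exists_int (c : A → ℚ) : ∃ (q : ℤ) (b : A → ℤ), q ≠ 0 ∧ rat b = (q : ℚ) • c := by
  classical
  refine ⟨∏ a, ((c a).den : ℤ), fun a => (c a).num * ∏ a' ∈ Finset.univ.erase a, ((c a').den : ℤ),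
    Finset.prod_ne_zero_iff.2 fun a _ => by exact_mod_cast (c a).den_ne_zero, ?_⟩
  funext a
  rw [Pi.smul_apply, rat, smul_eq_mul, ← Finset.mul_prod_erase Finset.univ _ (Finset.mem_univ a)]
  push_cast
  have h1 : ((c a).den : ℚ) * c a = (c a).num := by
    rw [mul_comm]; exact Rat.mul_den_eq_num _
  rw [← h1]
  ring

/-- an integral basis of a subspace -/
lemma exists_basis (R : Submodule ℚ (A → ℚ)) : ∃ r : Fin (Module.finrank ℚ R) → A → ℤ,
    (∀ t, rat (r t) ∈ R) ∧ LinearIndependent ℚ (fun t => rat (r t)) ∧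
      Submodule.span ℚ (Set.range fun t => rat (r t)) = R := by
  classical
  obtain ⟨B⟩ : Nonempty (Module.Basis (Fin (Module.finrank ℚ R)) ℚ R) := ⟨Module.finBasis ℚ R⟩
  choose q r hq hr using fun t => exists_int (B t : A → ℚ)
  have hmem : ∀ t, rat (r t) ∈ R := fun t => by
    rw [hr]; exact R.smul_mem _ (B t).2
  have h1 : LinearIndependent ℚ (fun t => (B t : A → ℚ)) :=
    B.linearIndependent.map' R.subtype (Submodule.ker_subtype R)
  have h2 : LinearIndependent ℚ (fun t => rat (r t)) := by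
    have h3 := h1.units_smul (fun t => Units.mk0 (q t : ℚ) (by exact_mod_cast hq t))
    have h4 : (fun t => rat (r t)) =
        (fun t => Units.mk0 (q t : ℚ) (by exact_mod_cast hq t)) • (fun t => (B t : A → ℚ)) := by
      funext t
      rw [hr]
      rfl
    rw [h4]
    exact h3
  refine ⟨r, hmem, h2, ?_⟩
  refine Submodule.eq_of_le_of_finrank_eq ?_ ?_
  · rw [Submodule.span_le]
    rintro _ ⟨t, rfl⟩
    exact hmem t
  · rw [finrank_span_eq_card h2, Fintype.card_fin]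

/-- a basis of near relations -/
lemma exists_near_basis (T : A → ℂ) (κ : ℕ) (H : ℝ) :
    ∃ b : Fin (Module.finrank ℚ (NS T κ H)) → A → ℤ, (∀ s, b s ∈ NV T κ H) ∧
      LinearIndependent ℚ (fun s => rat (b s)) ∧
      Submodule.span ℚ (Set.range fun s => rat (b s)) = NS T κ H := by
  classical
  obtain ⟨ι, e, he, hspan, hli⟩ := exists_linearIndependent' ℚ
    (fun c : NV T κ H => rat (c : A → ℤ))
  have hιf : Finite ι := hli.finite
  let inst : Fintype ι := Fintype.ofFinite ι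
  have h1 : NS T κ H = Submodule.span ℚ (Set.range ((fun c : NV T κ H => rat (c : A → ℤ)) ∘ e)) := by
    rw [hspan, NS]
    congr 1
    ext z
    simp
  have hcard : Fintype.card ι = Module.finrank ℚ (NS T κ H) := by
    rw [h1]
    exact (finrank_span_eq_card hli).symm
  obtain ⟨f⟩ : Nonempty (Fin (Module.finrank ℚ (NS T κ H)) ≃ ι) :=
    ⟨(finCongr hcard.symm).trans (Fintype.equivFin ι).symm⟩
  refine ⟨fun s => (e (f s) : A → ℤ), fun s => (e (f s)).2, hli.comp f f.injective, ?_⟩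
  refine Eq.trans ?_ h1.symm
  congr 1
  exact f.surjective.range_comp ((fun c : NV T κ H => rat (c : A → ℤ)) ∘ e)

/-- **Independence of near relations.** -/
theorem key {W : A → Prop} {u : A → ℂ} {v : J → A → ℂ} {k₀ : ℕ} {c₀ : ℝ} (h : Hyp W u v k₀ c₀)
    {n : ℕ} (r : Fin n → A → ℤ) (hr : ∀ t, rat (r t) ∈ RS u)
    (hri : LinearIndependent ℚ (fun t => rat (r t))) :
    ∃ k₁ : ℕ, ∃ h₁ : ℝ, 1 ≤ h₁ ∧ ∀ H : ℝ, h₁ ≤ H → ∀ (p : J → ℕ) (b : (j : J) → Fin (p j) → A → ℤ),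
      (∀ j s a, |(b j s a : ℝ)| ≤ H) →
      (∀ j s, ‖lf (fun a => u a - v j a) (b j s)‖ ≤ 1 / H ^ k₁) →
      (∀ j, LinearIndependent ℚ (fun s => rat (b j s))) →
      LinearIndependent ℚ (Sum.elim (fun t => rat (r t)) fun q : (j : J) × Fin (p j) =>
        rat (b q.1 q.2)) := by
  classical
  obtain ⟨cA, hcA⟩ : ∃ cA : ℕ, cA = Fintype.card A := ⟨_, rfl⟩
  obtain ⟨P₁, hP₁⟩ : ∃ P₁ : ℕ, P₁ = n + Fintype.card J * cA + cA + 1 := ⟨_, rfl⟩
  obtain ⟨e, he⟩ : ∃ e : ℕ, e = (cA + 1) * (k₀ + 1) := ⟨_, rfl⟩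
  have hc₀ := h.pos
  have hP1 : (1 : ℝ) ≤ P₁ := by
    have : 1 ≤ P₁ := by rw [hP₁]; omega
    exact_mod_cast this
  refine ⟨e + 1, 1 + (∑ t, ∑ a, |(r t a : ℝ)|) + (P₁ : ℝ) ^ e / c₀, ?_, ?_⟩
  · have h1 : 0 ≤ ∑ t, ∑ a, |(r t a : ℝ)| :=
      Finset.sum_nonneg fun _ _ => Finset.sum_nonneg fun _ _ => abs_nonneg _
    have h2 : 0 ≤ (P₁ : ℝ) ^ e / c₀ := by positivity
    linarith
  intro H hH p b hbH hbs hbi
  have hs1 : 0 ≤ ∑ t, ∑ a, |(r t a : ℝ)| :=
    Finset.sum_nonneg fun _ _ => Finset.sum_nonneg fun _ _ => abs_nonneg _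
  have hs2 : 0 ≤ (P₁ : ℝ) ^ e / c₀ := by positivity
  have hH1 : 1 ≤ H := by linarith
  have hH0 : 0 < H := by linarith
  have hHe : (P₁ : ℝ) ^ e / c₀ < H := by linarith
  rw [div_lt_iff₀ hc₀] at hHe
  have hrH : ∀ t a, |(r t a : ℝ)| ≤ H := by
    intro t a
    have h1 : |(r t a : ℝ)| ≤ ∑ t, ∑ a, |(r t a : ℝ)| := by
      refine le_trans ?_ (Finset.single_le_sum (f := fun t => ∑ a, |(r t a : ℝ)|)
        (fun _ _ => Finset.sum_nonneg fun _ _ => abs_nonneg _) (Finset.mem_univ t))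
      exact Finset.single_le_sum (f := fun a => |(r t a : ℝ)|) (fun _ _ => abs_nonneg _)
        (Finset.mem_univ a)
    linarith
  have hp : ∀ j, p j ≤ cA := by
    intro j
    have h1 := (hbi j).fintype_card_le_finrank
    rwa [Module.finrank_fintype_fun_eq_card, Fintype.card_fin, ← hcA] at h1
  have hsum : ∑ j, p j ≤ Fintype.card J * cA := by
    have := Finset.sum_le_card_nsmul Finset.univ p cA fun j _ => hp j
    rwa [smul_eq_mul, Finset.card_univ] at this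
  by_contra hdep
  obtain ⟨vec, hvec⟩ : ∃ vec : Fin n ⊕ ((j : J) × Fin (p j)) → A → ℤ,
      vec = Sum.elim r fun q => b q.1 q.2 := ⟨_, rfl⟩
  have hvec2 : (Sum.elim (fun t => rat (r t)) fun q : (j : J) × Fin (p j) => rat (b q.1 q.2)) =
      fun o a => (vec o a : ℚ) := by
    funext o
    rw [hvec]
    rcases o with t | q <;> rfl
  rw [hvec2] at hdep
  obtain ⟨l, hl0, hlb, hl⟩ := small_kernel vec H hH1 (by
    rintro (t | q) a
    · rw [hvec]; exact hrH t a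
    · rw [hvec]; exact hbH _ _ a) hdep
  obtain ⟨L, hL⟩ : ∃ L : ℝ, L = ((P₁ : ℝ) * H) ^ cA := ⟨_, rfl⟩
  have hPH : 1 ≤ (P₁ : ℝ) * H := one_le_mul_of_one_le_of_one_le hP1 hH1
  have hL1 : 1 ≤ L := by rw [hL]; exact one_le_pow₀ hPH
  have hlL : ∀ o, |(l o : ℝ)| ≤ L := by
    intro o
    refine (hlb o).trans ?_
    rw [← hcA, hL]
    refine pow_le_pow_left₀ (by positivity) (mul_le_mul_of_nonneg_right ?_ hH0.le) _
    rw [Fintype.card_sum, Fintype.card_sigma]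
    simp only [Fintype.card_fin]
    have : n + ∑ j, p j ≤ P₁ := by rw [hP₁]; omega
    exact_mod_cast this
  obtain ⟨Q, hQ⟩ : ∃ Q : ℝ, Q = (P₁ : ℝ) * H * L := ⟨_, rfl⟩
  have hQ1 : 1 ≤ Q := by rw [hQ]; exact one_le_mul_of_one_le_of_one_le hPH hL1
  have hQe : Q ^ (k₀ + 1) = (P₁ : ℝ) ^ e * H ^ e := by
    rw [hQ, hL, ← pow_succ', ← pow_mul, ← mul_pow, he]
  obtain ⟨μ, hμ⟩ : ∃ μ : J → A → ℤ, μ = fun j a => ∑ s, l (Sum.inr ⟨j, s⟩) * b j s a := ⟨_, rfl⟩
  have hμQ : ∀ j a, |(μ j a : ℝ)| ≤ Q := by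
    intro j a
    rw [hμ]
    push_cast
    calc |∑ s, (l (Sum.inr ⟨j, s⟩) : ℝ) * (b j s a : ℝ)| ≤
          ∑ s, |(l (Sum.inr ⟨j, s⟩) : ℝ) * (b j s a : ℝ)| := Finset.abs_sum_le_sum_abs _ _
      _ ≤ ∑ _s : Fin (p j), L * H := by
          refine Finset.sum_le_sum fun s _ => ?_
          rw [abs_mul]
          exact mul_le_mul (hlL _) (hbH _ _ _) (abs_nonneg _) (by linarith)
      _ = (p j : ℝ) * (L * H) := by rw [Finset.sum_const, Finset.card_univ, Fintype.card_fin,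
            nsmul_eq_mul]
      _ ≤ (P₁ : ℝ) * (L * H) := by
          refine mul_le_mul_of_nonneg_right ?_ (by positivity)
          have h1 := hp j
          have : p j ≤ P₁ := by rw [hP₁]; omega
          exact_mod_cast this
      _ = Q := by rw [hQ]; ring
  obtain ⟨T, hT⟩ : ∃ T : J → A → ℂ, T = fun j a => u a - v j a := ⟨_, rfl⟩
  have hbs' : ∀ j s, ‖lf (T j) (b j s)‖ ≤ 1 / H ^ (e + 1) := by
    intro j s
    rw [hT]
    exact hbs j s
  -- the values at the points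
  have hval : ∀ j, ∑ a, (μ j a : ℂ) * T j a = ∑ s, (l (Sum.inr ⟨j, s⟩) : ℂ) * lf (T j) (b j s) := by
    intro j
    rw [hμ]
    simp only [lf, Finset.mul_sum]
    rw [Finset.sum_comm]
    refine Finset.sum_congr rfl fun a _ => ?_
    push_cast
    rw [Finset.sum_mul]
    exact Finset.sum_congr rfl fun s _ => by ring
  have hvaln : ∀ j, ‖∑ a, (μ j a : ℂ) * T j a‖ ≤ (p j : ℝ) * (L * (1 / H ^ (e + 1))) := by
    intro j
    rw [hval j]
    calc ‖∑ s, (l (Sum.inr ⟨j, s⟩) : ℂ) * lf (T j) (b j s)‖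
        ≤ ∑ s, ‖(l (Sum.inr ⟨j, s⟩) : ℂ) * lf (T j) (b j s)‖ := norm_sum_le _ _
      _ ≤ ∑ _s : Fin (p j), L * (1 / H ^ (e + 1)) := by
          refine Finset.sum_le_sum fun s _ => ?_
          rw [norm_mul, Complex.norm_intCast]
          exact mul_le_mul (hlL _) (hbs' _ _) (norm_nonneg _) (by linarith)
      _ = _ := by rw [Finset.sum_const, Finset.card_univ, Fintype.card_fin, nsmul_eq_mul]
  have hsmall : ∀ x : ℝ, x ≤ (P₁ : ℝ) * (L * (1 / H ^ (e + 1))) → ¬ c₀ ≤ Q ^ k₀ * x := by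
    intro x hx hc
    have hx2 : x ≤ Q * (1 / H ^ (e + 1)) := by
      refine hx.trans ?_
      rw [hQ]
      calc (P₁ : ℝ) * (L * (1 / H ^ (e + 1))) = 1 * ((P₁ : ℝ) * (L * (1 / H ^ (e + 1)))) := by ring
        _ ≤ H * ((P₁ : ℝ) * (L * (1 / H ^ (e + 1)))) :=
            mul_le_mul_of_nonneg_right hH1 (by positivity)
        _ = _ := by ring
    have h1 : c₀ ≤ Q ^ (k₀ + 1) * (1 / H ^ (e + 1)) := by
      refine hc.trans ?_
      rw [pow_succ, mul_assoc]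
      exact mul_le_mul_of_nonneg_left hx2 (by positivity)
    rw [hQe] at h1
    have h2 : (P₁ : ℝ) ^ e * H ^ e * (1 / H ^ (e + 1)) = (P₁ : ℝ) ^ e / H := by
      rw [pow_succ]; field_simp
    rw [h2, le_div_iff₀ hH0] at h1
    linarith
  have hsumμ : ∀ a, ∑ j, μ j a = -∑ t, l (Sum.inl t) * r t a := by
    intro a
    have h1 := hl a
    rw [Fintype.sum_sum_type, hvec] at h1
    simp only [Sum.elim_inl, Sum.elim_inr] at h1
    rw [Fintype.sum_sigma] at h1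
    rw [hμ]
    linarith
  have hru : ∀ t, lf u (r t) = 0 := fun t => mem_RS_rat.1 (hr t)
  have hu0 : ∑ j, ∑ a, (μ j a : ℂ) * u a = 0 := by
    rw [Finset.sum_comm]
    have h1 : ∀ a, ∑ j, (μ j a : ℂ) * u a = -∑ t, (l (Sum.inl t) : ℂ) * ((r t a : ℂ) * u a) := by
      intro a
      rw [← Finset.sum_mul]
      have h2 : (∑ j, (μ j a : ℂ)) = -∑ t, (l (Sum.inl t) : ℂ) * (r t a : ℂ) := by
        exact_mod_cast congrArg (fun z : ℤ => (z : ℂ)) (hsumμ a)
      rw [h2, neg_mul, Finset.sum_mul]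
      congr 1
      exact Finset.sum_congr rfl fun t _ => by ring
    rw [Finset.sum_congr rfl fun a _ => h1 a, Finset.sum_neg_distrib, Finset.sum_comm, neg_eq_zero]
    refine Finset.sum_eq_zero fun t _ => ?_
    rw [← Finset.mul_sum]
    have := hru t
    rw [lf] at this
    rw [this, mul_zero]
  have hv1 : ∑ j, ∑ a, (μ j a : ℂ) * v j a = -∑ j, ∑ a, (μ j a : ℂ) * T j a := by
    have h1 : ∑ j, ∑ a, (μ j a : ℂ) * T j a = ∑ j, ∑ a, (μ j a : ℂ) * u a -
        ∑ j, ∑ a, (μ j a : ℂ) * v j a := by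
      rw [← Finset.sum_sub_distrib]
      refine Finset.sum_congr rfl fun j _ => ?_
      rw [← Finset.sum_sub_distrib]
      refine Finset.sum_congr rfl fun a _ => ?_
      rw [hT]
      ring
    rw [h1, hu0]
    ring
  have hv2 : ‖∑ j, ∑ a, (μ j a : ℂ) * v j a‖ ≤ (P₁ : ℝ) * (L * (1 / H ^ (e + 1))) := by
    rw [hv1, norm_neg]
    calc ‖∑ j, ∑ a, (μ j a : ℂ) * T j a‖ ≤ ∑ j, ‖∑ a, (μ j a : ℂ) * T j a‖ := norm_sum_le _ _
      _ ≤ ∑ j, (p j : ℝ) * (L * (1 / H ^ (e + 1))) := Finset.sum_le_sum fun j _ => hvaln j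
      _ = ((∑ j, p j : ℕ) : ℝ) * (L * (1 / H ^ (e + 1))) := by
          push_cast; rw [Finset.sum_mul]
      _ ≤ _ := by
          refine mul_le_mul_of_nonneg_right ?_ (by positivity)
          have : ∑ j, p j ≤ P₁ := by rw [hP₁]; omega
          exact_mod_cast this
  have hv0 : ∑ j, ∑ a, (μ j a : ℂ) * v j a = 0 := by
    by_contra hne
    exact hsmall _ hv2 (h.meas μ Q hQ1 hμQ hne)
  have hW := h.ind μ hv0
  have hμ0 : ∀ j, μ j = 0 := by
    intro j
    by_contra hne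
    refine hsmall ‖∑ a, (μ j a : ℂ) * u a‖ ?_ (h.cmeas (μ j) hne (hW j) Q hQ1 (hμQ j))
    have h1 : ∑ a, (μ j a : ℂ) * u a = ∑ a, (μ j a : ℂ) * T j a := by
      refine Finset.sum_congr rfl fun a _ => ?_
      by_cases hWa : W a
      · rw [hW j a hWa]; simp
      · rw [hT]
        simp only
        rw [h.cst j a hWa, sub_zero]
    rw [h1]
    refine (hvaln j).trans ?_
    refine mul_le_mul_of_nonneg_right ?_ (by positivity)
    have h1 := hp j
    have : p j ≤ P₁ := by rw [hP₁]; omega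
    exact_mod_cast this
  have hlj : ∀ j s, l (Sum.inr ⟨j, s⟩) = 0 := by
    intro j s
    have h1 := Fintype.linearIndependent_iff.1 (hbi j) (fun s => (l (Sum.inr ⟨j, s⟩) : ℚ)) (by
      funext a
      have h2 := congrFun (hμ0 j) a
      rw [hμ] at h2
      rw [Finset.sum_apply]
      have h3 : ∑ s, (l (Sum.inr ⟨j, s⟩) : ℚ) * (b j s a : ℚ) = 0 := by exact_mod_cast h2
      exact h3) s
    exact_mod_cast h1
  have hlt : ∀ t, l (Sum.inl t) = 0 := by
    intro t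
    have h1 := Fintype.linearIndependent_iff.1 hri (fun t => (l (Sum.inl t) : ℚ)) (by
      funext a
      have h2 := hsumμ a
      rw [Finset.sum_eq_zero (fun j _ => congrFun (hμ0 j) a)] at h2
      rw [Finset.sum_apply]
      have h3 : ∑ t, (l (Sum.inl t) : ℚ) * (r t a : ℚ) = 0 := by
        have h4 : ∑ t, l (Sum.inl t) * r t a = 0 := by linarith
        exact_mod_cast h4
      exact h3) t
    exact_mod_cast h1
  refine hl0 (funext fun o => ?_)
  rcases o with t | ⟨j, s⟩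
  · exact hlt t
  · exact hlj j s

end Pool.Agent.H488.W
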