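import Pool.Agent.H488.E.Qb

/-!
# The values of polynomials at elements of the ring of values are zero or not small
-/

set_option autoImplicit false
set_option linter.unusedSectionVars false

open PowerSeries

namespace Pool.Agent.H488.W

open Pool.Agent.Y113 Pool.Agent.R352.E Pool.Agent.N902.EW
open Pool.Agent.H488.E
open Pool.Agent.H488.M (Meas Bd vl_le)
open Pool.Agent.H596.Q (box mem_box)

/-- the values of polynomials are zero or not small -/
def Semi {σ : Type} (θ : σ → ℂ) : Prop :=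
  ∀ d : ℕ, ∃ κ : ℕ, ∃ c : ℝ, 0 < c ∧ ∀ P : MvPolynomial σ ℤ, MvPolynomial.aeval θ P ≠ 0 →
    ∀ H : ℝ, 1 ≤ H → Bd d H P → c ≤ H ^ κ * ‖MvPolynomial.aeval θ P‖

section field

variable {K : Type*} [Field K] [NumberField K] [IsGalois ℚ K]

/-- **The values of polynomials are zero or not small**, over a number field -/
theorem semi_K (φ : K →+* ℂ) {ι : Type} [Fintype ι] (g : ι → AA K) :
    Semi fun i => evA φ (g i) := by
  classical
  intro d
  obtain ⟨G, hGd⟩ : ∃ G : ℕ, G = Fintype.card (K ≃ₐ[ℚ] K) := ⟨_, rfl⟩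
  have hGpos : 0 < G := by rw [hGd]; exact Fintype.card_pos
  -- the products
  let M : ((K ≃ₐ[ℚ] K) → box ι d) → AA K := fun μ =>
    ∏ σ, act σ (∏ i, g i ^ (μ σ : ι →₀ ℕ) i)
  let T : ((K ≃ₐ[ℚ] K) → box ι d) → AA K := fun μ => ∑ τ : K ≃ₐ[ℚ] K, act τ (M μ)
  have hTinv : ∀ μ (σ : K ≃ₐ[ℚ] K), act σ (T μ) = T μ := by
    intro μ σ
    show act σ (∑ τ : K ≃ₐ[ℚ] K, act τ (M μ)) = _
    rw [map_sum]
    refine Fintype.sum_equiv (Equiv.mulLeft σ) _ _ fun τ => ?_
    rw [act_act]; rfl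
  let ρ : (K ≃ₐ[ℚ] K) →* (K ≃+* K) :=
    { toFun := fun σ => σ.toRingEquiv
      map_one' := rfl
      map_mul' := fun _ _ => rfl }
  have hst : ∀ μ, ∃ I : Finset (K × List K), Stb I ∧ (T μ).1 ∈ VI I ∧
      ∀ (σ : K ≃ₐ[ℚ] K), ∀ x ∈ I, mx (ρ σ : K →+* K) x ∈ I := fun μ => exists_Stb ρ (T μ).2
  choose J hJ hJT hJG using hst
  have hne : Nonempty ((K ≃ₐ[ℚ] K) → box ι d) := ⟨fun _ => ⟨0, mem_box d 0 fun _ => Nat.zero_le _⟩⟩
  obtain ⟨I, hId⟩ : ∃ I : Finset (K × List K), I = Finset.univ.biUnion J := ⟨_, rfl⟩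
  have hI : Stb I := by rw [hId]; exact stb_biUnion J hJ
  have hIG : ∀ (σ : K ≃ₐ[ℚ] K), ∀ x ∈ I, mx (σ : K →+* K) x ∈ I := by
    intro σ x hx
    rw [hId] at hx ⊢
    obtain ⟨μ, -, hμ⟩ := Finset.mem_biUnion.1 hx
    exact Finset.mem_biUnion.2 ⟨μ, Finset.mem_univ μ, hJG μ σ x hμ⟩
  have hTI : ∀ μ, (T μ).1 ∈ VI I := fun μ => VI_mono (by
    rw [hId]; exact Finset.subset_biUnion_of_mem J (Finset.mem_univ μ)) (hJT μ)
  obtain ⟨N, y, hy, hrep, hLI, κ, c, hc, hmeas⟩ := meas_W0 φ hI hIG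
  have hTb : ∀ μ, ∃ t : ℚ⟦X⟧, bc K t = (T μ).1 := fun μ =>
    exists_bc fun σ => congrArg Subtype.val (hTinv μ σ)
  choose t ht using hTb
  have htW : ∀ μ, t μ ∈ W0 I := fun μ => by rw [mem_W0, ht]; exact hTI μ
  choose cc hcc using fun μ => hrep (t μ) (htW μ)
  obtain ⟨q, hq, z, hz⟩ := exists_den
    (fun p : ((K ≃ₐ[ℚ] K) → box ι d) × Fin N => cc p.1 p.2)
  obtain ⟨Z, hZ⟩ : ∃ Z : ℝ, Z = 1 + ∑ p : ((K ≃ₐ[ℚ] K) → box ι d) × Fin N, |(z p : ℝ)| := ⟨_, rfl⟩
  have hZ1 : 1 ≤ Z := by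
    rw [hZ]
    have : 0 ≤ ∑ p : ((K ≃ₐ[ℚ] K) → box ι d) × Fin N, |(z p : ℝ)| :=
      Finset.sum_nonneg fun _ _ => abs_nonneg _
    linarith
  -- the bound for the conjugates
  have hB : ∀ σ : K ≃ₐ[ℚ] K, ∃ B : ℝ, 1 ≤ B ∧ ∀ (P : MvPolynomial ι ℤ) (H : ℝ), 0 ≤ H → Bd d H P →
      ‖MvPolynomial.aeval (fun i => evA φ (act σ (g i))) P‖ ≤ B * H := fun σ => vl_le _ d
  choose B hB1 hB using hB
  obtain ⟨B', hB'⟩ : ∃ B' : ℝ, B' = ∏ σ : K ≃ₐ[ℚ] K, B σ := ⟨_, rfl⟩
  have hB'1 : 1 ≤ B' := by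
    rw [hB']
    calc (1 : ℝ) = ∏ _σ : K ≃ₐ[ℚ] K, (1 : ℝ) := by simp
      _ ≤ _ := Finset.prod_le_prod (fun _ _ => zero_le_one) fun σ _ => hB1 σ
  refine ⟨G * κ + G, c / (Z ^ κ * (q * G * B')), by positivity, fun P hP' H hH hPB => ?_⟩
  have hP : pv g P ≠ 0 := by
    intro h0
    refine hP' ?_
    rw [← pv_aeval, ← pv_map, h0, map_zero]
  have hH0 : 0 < H := by linarith
  -- the norm
  obtain ⟨F, hF⟩ : ∃ F : AA K, F = ∏ σ, act σ (pv g P) := ⟨_, rfl⟩
  have hF0 : F ≠ 0 := by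
    rw [hF, Finset.prod_ne_zero_iff]
    intro σ _ h0
    refine hP (act_inj σ ?_)
    rw [h0, map_zero]
  have hFinv : ∀ τ, act τ F = F := by
    intro τ
    rw [hF, map_prod]
    refine Fintype.prod_equiv (Equiv.mulLeft τ) _ _ fun σ => ?_
    rw [act_act]; rfl
  obtain ⟨p, hp⟩ : ∃ p : ((K ≃ₐ[ℚ] K) → box ι d) → ℤ, p = fun μ => ∏ σ, P.coeff (μ σ) := ⟨_, rfl⟩
  have hpB : ∀ μ, |(p μ : ℝ)| ≤ H ^ G := by
    intro μ
    rw [hp, hGd]
    push_cast
    rw [Finset.abs_prod]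
    calc ∏ σ : K ≃ₐ[ℚ] K, |((P.coeff (μ σ) : ℤ) : ℝ)| ≤ ∏ _σ : K ≃ₐ[ℚ] K, H :=
          Finset.prod_le_prod (fun _ _ => abs_nonneg _) fun σ _ => hPB.2 _
      _ = _ := by rw [Finset.prod_const, Finset.card_univ]
  have hFM : F = ∑ μ, ((p μ : ℤ) : AA K) * M μ := by
    rw [hF]
    have h1 : ∀ σ : K ≃ₐ[ℚ] K, act σ (pv g P) =
        ∑ m : box ι d, ((P.coeff m : ℤ) : AA K) * act σ (∏ i, g i ^ (m : ι →₀ ℕ) i) := by
      intro σ
      rw [pv_box g d P hPB.1, map_sum]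
      exact Finset.sum_congr rfl fun m _ => by rw [map_mul, map_intCast]
    rw [Finset.prod_congr rfl fun σ _ => h1 σ, Finset.prod_univ_sum, Fintype.piFinset_univ]
    refine Finset.sum_congr rfl fun μ _ => ?_
    rw [Finset.prod_mul_distrib, hp]
    push_cast
    rfl
  have hFT : (G : AA K) * F = ∑ μ, ((p μ : ℤ) : AA K) * T μ := by
    have h1 : (G : AA K) * F = ∑ τ : K ≃ₐ[ℚ] K, act τ F := by
      rw [Finset.sum_congr rfl fun τ _ => hFinv τ, Finset.sum_const, Finset.card_univ, hGd,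
        nsmul_eq_mul]
    rw [h1, hFM]
    have h2 : ∀ τ : K ≃ₐ[ℚ] K, act τ (∑ μ, ((p μ : ℤ) : AA K) * M μ) =
        ∑ μ, ((p μ : ℤ) : AA K) * act τ (M μ) := by
      intro τ
      rw [map_sum]
      exact Finset.sum_congr rfl fun μ _ => by rw [map_mul, map_intCast]
    rw [Finset.sum_congr rfl fun τ _ => h2 τ, Finset.sum_comm]
    exact Finset.sum_congr rfl fun μ _ => by rw [← Finset.mul_sum]
  -- the coefficients
  obtain ⟨a, ha⟩ : ∃ a : Fin N → ℤ, a = fun i => ∑ μ, p μ * z (μ, i) := ⟨_, rfl⟩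
  have haB : ∀ i, |(a i : ℝ)| ≤ Z * H ^ G := by
    intro i
    rw [ha]
    push_cast
    calc |∑ μ, (p μ : ℝ) * (z (μ, i) : ℝ)| ≤ ∑ μ, |(p μ : ℝ) * (z (μ, i) : ℝ)| :=
          Finset.abs_sum_le_sum_abs _ _
      _ ≤ ∑ μ, H ^ G * |(z (μ, i) : ℝ)| := by
          refine Finset.sum_le_sum fun μ _ => ?_
          rw [abs_mul]
          exact mul_le_mul_of_nonneg_right (hpB μ) (abs_nonneg _)
      _ = H ^ G * ∑ μ, |(z (μ, i) : ℝ)| := by rw [Finset.mul_sum]
      _ ≤ H ^ G * Z := by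
          refine mul_le_mul_of_nonneg_left ?_ (by positivity)
          rw [hZ]
          have h1 : ∑ μ, |(z (μ, i) : ℝ)| ≤ ∑ p : ((K ≃ₐ[ℚ] K) → box ι d) × Fin N, |(z p : ℝ)| := by
            rw [Fintype.sum_prod_type]
            refine Finset.sum_le_sum fun μ _ => ?_
            exact Finset.single_le_sum (f := fun i => |(z (μ, i) : ℝ)|) (fun _ _ => abs_nonneg _)
              (Finset.mem_univ i)
          linarith
      _ = _ := by ring
  have hsum : ∑ i, (a i : ℚ) • y i = (q : ℚ) • ∑ μ, (p μ : ℚ) • t μ := by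
    have h1 : ∀ i, (a i : ℚ) • y i = ∑ μ, (p μ : ℚ) • ((z (μ, i) : ℚ) • y i) := by
      intro i
      rw [ha]
      push_cast
      rw [Finset.sum_smul]
      exact Finset.sum_congr rfl fun μ _ => by rw [mul_smul]
    rw [Finset.sum_congr rfl fun i _ => h1 i, Finset.sum_comm, Finset.smul_sum]
    refine Finset.sum_congr rfl fun μ _ => ?_
    rw [← Finset.smul_sum, smul_comm (q : ℚ) (p μ : ℚ) (t μ)]
    congr 1
    conv_rhs => rw [hcc μ, Finset.smul_sum]
    refine Finset.sum_congr rfl fun i _ => ?_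
    rw [hz (μ, i), mul_smul]
  have hval : bc K (∑ i, (a i : ℚ) • y i) = ((q * G : ℕ) : AA K).1 * F.1 := by
    rw [hsum, bc_smul, map_sum]
    have h1 : ∀ μ, bc K ((p μ : ℚ) • t μ) = (((p μ : ℤ) : AA K) * T μ).1 := by
      intro μ
      rw [bc_smul, ht, smul_eq_C_mul]
      show _ = ((p μ : ℤ) : AA K).1 * (T μ).1
      congr 1
      have h2 : ((p μ : ℤ) : AA K).1 = ((p μ : ℤ) : K⟦X⟧) := by
        exact map_intCast (AA K).val (p μ)
      rw [h2]
      simp
    rw [Finset.sum_congr rfl fun μ _ => h1 μ]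
    have h3 : ∑ μ, (((p μ : ℤ) : AA K) * T μ).1 = ((G : AA K) * F).1 := by
      rw [hFT]
      exact (map_sum (AA K).val (fun μ => ((p μ : ℤ) : AA K) * T μ) Finset.univ).symm
    rw [h3, smul_eq_C_mul]
    have h4 : ((q * G : ℕ) : AA K).1 = ((q * G : ℕ) : K⟦X⟧) := map_natCast (AA K).val _
    have h5 : ((G : AA K) * F).1 = (G : K⟦X⟧) * F.1 := by
      show ((G : ℕ) : AA K).1 * F.1 = _
      rw [show ((G : ℕ) : AA K).1 = ((G : ℕ) : K⟦X⟧) from map_natCast (AA K).val _]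
    rw [h4, h5]
    push_cast
    rw [← mul_assoc]
    congr 2
  have ha0 : a ≠ 0 := by
    intro h0
    have h1 : bc K (∑ i, (a i : ℚ) • y i) = 0 := by
      rw [h0]; simp
    rw [h1] at hval
    have h2 : ((q * G : ℕ) : AA K) * F = 0 := Subtype.ext hval.symm
    rcases mul_eq_zero.1 h2 with h3 | h3
    · have h4 : (((q * G : ℕ) : AA K).1 : K⟦X⟧) = 0 := congrArg Subtype.val h3
      rw [show (((q * G : ℕ) : AA K).1 : K⟦X⟧) = ((q * G : ℕ) : K⟦X⟧) from map_natCast (AA K).val _] at h4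
      have h5 := congrArg (constantCoeff (R := K)) h4
      rw [map_natCast, map_zero, Nat.cast_eq_zero] at h5
      have : 0 < q * G := Nat.mul_pos hq hGpos
      omega
    · exact hF0 h3
  have hev : ((∑ i, (a i : ℝ) * ev 1 (y i) : ℝ) : ℂ) = ((q * G : ℕ) : ℂ) * evA φ F := by
    have h0 : evA φ (((q * G : ℕ) : AA K) * F) = ((q * G : ℕ) : ℂ) * evA φ F := by
      rw [map_mul, map_natCast]
    rw [← h0]
    show _ = evk φ (((q * G : ℕ) : AA K).1 * F.1)
    rw [← hval]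
    have h3 : ∀ s : Finset (Fin N), EFK φ (bc K (∑ i ∈ s, (a i : ℚ) • y i)) ∧
        evk φ (bc K (∑ i ∈ s, (a i : ℚ) • y i)) = ((∑ i ∈ s, (a i : ℝ) * ev 1 (y i) : ℝ) : ℂ) := by
      intro s
      induction s using Finset.induction_on with
      | empty =>
        rw [Finset.sum_empty, Finset.sum_empty, map_zero]
        exact ⟨EFK.zero, by rw [evk_zero]; simp⟩
      | insert i s hi ih =>
        have h4 : EFK φ (bc K (y i)) := EFK.of_mem (VI_le hI (mem_W0.1 (hy i)))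
        rw [Finset.sum_insert hi, Finset.sum_insert hi, map_add, bc_smul]
        refine ⟨(h4.smul _).add ih.1, ?_⟩
        rw [evk_add (h4.smul _) ih.1, ih.2, evk_smul, evk_bc, Complex.ofReal_add]
        congr 1
        push_cast
        simp
    exact (h3 Finset.univ).2.symm
  have hprod : ‖evA φ F‖ ≤ ‖MvPolynomial.aeval (fun i => evA φ (g i)) P‖ * (B' * H ^ G) := by
    rw [hF, map_prod, norm_prod]
    have h1 : ∀ σ : K ≃ₐ[ℚ] K, evA φ (act σ (pv g P)) =
        MvPolynomial.aeval (fun i => evA φ (act σ (g i))) P := by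
      intro σ
      rw [pv_map, pv_map, pv_aeval]
    rw [← Finset.mul_prod_erase Finset.univ _ (Finset.mem_univ (1 : K ≃ₐ[ℚ] K))]
    have h2 : evA φ (act (1 : K ≃ₐ[ℚ] K) (pv g P)) =
        MvPolynomial.aeval (fun i => evA φ (g i)) P := by
      rw [act_one, pv_map, pv_aeval]
    rw [h2]
    refine mul_le_mul_of_nonneg_left ?_ (norm_nonneg _)
    calc ∏ σ ∈ Finset.univ.erase (1 : K ≃ₐ[ℚ] K), ‖evA φ (act σ (pv g P))‖
        ≤ ∏ σ ∈ Finset.univ.erase (1 : K ≃ₐ[ℚ] K), (B σ * H) := by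
          refine Finset.prod_le_prod (fun _ _ => norm_nonneg _) fun σ _ => ?_
          rw [h1]
          exact hB σ P H hH0.le hPB
      _ ≤ (B 1 * H) * ∏ σ ∈ Finset.univ.erase (1 : K ≃ₐ[ℚ] K), (B σ * H) := by
          refine le_mul_of_one_le_left (Finset.prod_nonneg fun σ _ => ?_) ?_
          · have := hB1 σ
            positivity
          · exact one_le_mul_of_one_le_of_one_le (hB1 1) hH
      _ = ∏ σ : K ≃ₐ[ℚ] K, (B σ * H) :=
          Finset.mul_prod_erase Finset.univ (fun σ => B σ * H) (Finset.mem_univ 1)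
      _ = B' * H ^ G := by
          rw [Finset.prod_mul_distrib, Finset.prod_const, Finset.card_univ, hB', hGd]
  have hA1 : 1 ≤ Z * H ^ G := one_le_mul_of_one_le_of_one_le hZ1 (one_le_pow₀ hH)
  have hfin := hmeas a ha0 (Z * H ^ G) hA1 haB
  have habs : |∑ i, (a i : ℝ) * ev 1 (y i)| = (q * G) * ‖evA φ F‖ := by
    rw [← Real.norm_eq_abs, ← Complex.norm_real, hev, norm_mul, Complex.norm_natCast]
    push_cast
    rfl
  rw [habs] at hfin
  have hq0 : (0 : ℝ) < q := by exact_mod_cast hq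
  have hG0 : (0 : ℝ) < G := by exact_mod_cast hGpos
  rw [div_le_iff₀ (by positivity)]
  refine hfin.trans ?_
  calc (Z * H ^ G) ^ κ * (q * G * ‖evA φ F‖) ≤ (Z * H ^ G) ^ κ *
        (q * G * (‖MvPolynomial.aeval (fun i => evA φ (g i)) P‖ * (B' * H ^ G))) := by
        refine mul_le_mul_of_nonneg_left (mul_le_mul_of_nonneg_left hprod (by positivity))
          (by positivity)
    _ = _ := by
        rw [mul_pow, ← pow_mul, pow_add]
        ring



end field

/-- the values of polynomials are zero or not small, over the algebraic numbers -/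
theorem semi_Qb {ι : Type} [Fintype ι] (f : ι → AA Qb) : Semi fun i => evA io (f i) := by
  classical
  choose s c hs hfs using fun i => exists_sum (f i).2
  -- the finite set of all elements which occur
  let S : Finset Qb := Finset.univ.biUnion fun i =>
    (s i).image (c i) ∪ (s i).image Prod.fst ∪ (s i).biUnion fun x => x.2.toFinset
  let M : FiniteGaloisIntermediateField ℚ Qb := FiniteGaloisIntermediateField.adjoin ℚ (S : Set Qb)
  let ψ : M.toIntermediateField →+* Qb := algebraMap M.toIntermediateField Qb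
  have hM : ∀ a ∈ S, a ∈ Set.range ψ := fun a ha =>
    ⟨⟨a, FiniteGaloisIntermediateField.subset_adjoin ℚ (S : Set Qb) ha⟩, rfl⟩
  have hS : ∀ i a, a ∈ (s i).image (c i) ∪ (s i).image Prod.fst ∪ (s i).biUnion
      (fun x => x.2.toFinset) → a ∈ S := fun i a ha =>
    Finset.mem_biUnion.2 ⟨i, Finset.mem_univ i, ha⟩
  have hx : ∀ i, ∀ x ∈ s i, ∃ (d : M.toIntermediateField)
      (y : M.toIntermediateField × List M.toIntermediateField), ψ d = c i x ∧ mx ψ y = x := by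
    intro i x hx
    obtain ⟨d, hd⟩ := hM (c i x) (hS i _ (by
      simp only [Finset.mem_union, Finset.mem_image]; exact Or.inl (Or.inl ⟨x, hx, rfl⟩)))
    obtain ⟨l, hl⟩ := hM x.1 (hS i _ (by
      simp only [Finset.mem_union, Finset.mem_image]; exact Or.inl (Or.inr ⟨x, hx, rfl⟩)))
    obtain ⟨w, hw⟩ := exists_list ψ x.2 fun a ha => hM a (hS i _ (by
      simp only [Finset.mem_union, Finset.mem_biUnion, List.mem_toFinset]; exact Or.inr ⟨x, hx, ha⟩))
    exact ⟨d, (l, w), hd, Prod.ext hl hw⟩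
  choose! d y hd hy using hx
  have hadm : ∀ i, ∀ x ∈ s i, Adm (y i x).2 := fun i x hx => by
    apply adm_of_map ψ
    have := congrArg Prod.snd (hy i x hx)
    simp only [mx] at this
    rw [this]
    exact hs i x hx
  have hmem : ∀ i, (∑ x ∈ s i, d i x • bf (y i x)) ∈ SA M.toIntermediateField := fun i =>
    Submodule.sum_mem _ fun x hx => Submodule.smul_mem _ _ (bf_mem (hadm i x hx))
  let g : ι → AA M.toIntermediateField := fun i => ⟨∑ x ∈ s i, d i x • bf (y i x), hmem i⟩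
  have hgf : ∀ i, mapA ψ (g i) = f i := by
    intro i
    apply Subtype.ext
    show PowerSeries.map ψ (∑ x ∈ s i, d i x • bf (y i x)) = (f i).1
    rw [hfs, map_sum]
    exact Finset.sum_congr rfl fun x hx => by rw [map_smul', map_bf, hd i x hx, hy i x hx]
  have hnf : NumberField M.toIntermediateField :=
    { to_charZero := inferInstance, to_finiteDimensional := inferInstance }
  have hgal : IsGalois ℚ M.toIntermediateField := M.isGalois
  have h1 := semi_K (io.comp ψ) g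
  have h2 : (fun i => evA (io.comp ψ) (g i)) = fun i => evA io (f i) := by
    funext i
    rw [← hgf i]
    show evk (io.comp ψ) (g i).1 = evk io (PowerSeries.map ψ (g i).1)
    rw [evk_map]
  rw [h2] at h1
  exact h1


/-- **The values of polynomials at elements of the ring of values are zero or not small.** -/
theorem semi_range {ι : Type} [Fintype ι] (w : ι → ℂ) (hw : ∀ i, w i ∈ (evA io).range) : Semi w := by
  choose f hf using hw
  have h1 := semi_Qb f
  have h3 : (fun i => evA io (f i)) = w := funext hf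
  rwa [h3] at h1

end Pool.Agent.H488.W
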